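import Pool.Agent.Helper76.AM.UL10

/-!
# Project AM, section 9: the uniform Laplacian bound (9.1), final assembly
-/

set_option autoImplicit false

namespace Pool.Agent.Helper76.AM

open MeasureTheory Set Filter Topology
open Pool.Agent.Helper29.AM
open scoped ComplexOrder

variable {X : Type} [TopologicalSpace X] [MeasurableSpace X] {n N : ℕ} (A : Atl X n N)
variable [CompactSpace X] [T2Space X] [BorelSpace X]

theorem sol_laplace (hn : 0 < n) (hV : A.VolLe) {D : Set X} {ψ ψ2 : X → ℝ} {ε a₀ : ℝ}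
    (hψ : A.NicePair D ψ ψ2 ε a₀) {φ : X → ℝ} (hφ : A.St 0 0 φ) {K : Set X} (hK : IsCompact K)
    (hKD : K ⊆ D) : ∃ C₁ : ℝ, ∀ τ : ℝ, 0 < τ → τ ≤ 1 → ∀ (C : ℝ) (φτ : X → ℝ), 0 ≤ C →
      A.Sol D τ C φτ → ∀ i, ∀ z : V n, ‖z‖ ≤ 1 → (A.e i).symm z ∈ K →
      DA 1 (A.pot i φτ) z ≤ C₁ := by
  obtain ⟨κ₀, d₁, hκ₀, hd₁, hd18, hcmp, hstage⟩ := A.stage_one hn
  obtain ⟨C₀', hC₀⟩ := A.sol_bounds hn hV hψ hφ
  obtain ⟨Cg, hCg0, hCg⟩ := A.exists_Phi_g_bound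
  obtain ⟨Cl, hCl0, hCl⟩ := exists_Phi_logf_bound A
  obtain ⟨cf, F, -, hF0, hF⟩ := A.exists_f_bounds
  have hD : IsOpen D := hψ.nice.isOpen
  have hε : 0 < ε := hψ.nice2.eps
  have ha := aa_pos (n := n)
  -- lower bound of ψ2 on K
  obtain ⟨J, hJ⟩ : ∃ J : ℝ, ∀ x ∈ K, -J ≤ ψ2 x := by
    obtain ⟨J, hJ⟩ := hK.exists_bound_of_continuousOn (hψ.nice2.cont.mono hKD)
    exact ⟨J, fun x hx => (abs_le.mp (by simpa [Real.norm_eq_abs] using hJ x hx)).1⟩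
  -- constants
  set C₀ : ℝ := |C₀'| with hC₀def
  have hC₀0 : 0 ≤ C₀ := abs_nonneg _
  set B₀ : ℝ := 4 * κ₀ / ε + 1 with hB₀def
  have hB₀ : 0 < B₀ := by positivity
  have hB₀ε : B₀ * ε = 4 * κ₀ + ε := by
    rw [hB₀def]; field_simp
  set m₁ : ℝ := Real.exp C₀ * F with hm₁
  set ℓ : ℝ := ell n (Cg + Cl) m₁ B₀ ε with hℓ
  set S : ℝ := 3 / 2 + 2 * aa n * 1 + ℓ + B₀ * C₀ + κ₀ + B₀ * (|J| + C₀) with hS
  refine ⟨1 + Real.exp (4 * S - 1) / (2 * aa n), ?_⟩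
  intro τ hτ hτ1 C φτ hC hsol i z hz1 hzK
  have hp : A.PSX φτ := hsol.st.psx
  have hsm : A.SmoothOn D φτ := hsol.smooth
  obtain ⟨hb, -⟩ := hC₀ τ hτ hτ1 C φτ hC hsol
  -- the base point
  set x₁ : X := (A.e i).symm z with hx₁def
  have hzt : z ∈ (A.e i).target := mem_target A (by linarith)
  have hx₁D : x₁ ∈ D := hKD hzK
  have hex₁ : A.e i x₁ = z := (A.e i).right_inv hzt
  have hx₁s : x₁ ∈ (A.e i).source := (A.e i).map_target hzt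
  have hx₁B : x₁ ∈ A.Bi i 2 := ⟨hx₁s, by rw [hex₁]; linarith⟩
  have hφD : ContinuousOn φτ D := by
    intro x hx
    obtain ⟨j, hj, hj1⟩ := A.cover x
    have hjC : x ∈ A.Ci j 2 := ⟨hj, by linarith⟩
    have h1 : ContinuousAt (A.lc j φτ) (A.e j x) := by
      refine ((hsm j).continuousOn).continuousAt ?_
      exact ((A.e j).isOpen_inter_preimage_symm hD).mem_nhds (chart_mem_GD A hx hjC).2
    have h2 : ContinuousAt (fun y => A.lc j φτ (A.e j y)) x :=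
      ContinuousAt.comp (g := A.lc j φτ) h1 ((A.e j).continuousAt hj)
    refine (h2.congr ?_).continuousWithinAt
    filter_upwards [(A.e j).open_source.mem_nhds hj] with y hy
    rw [Atl.lc, (A.e j).left_inv hy]
  -- lower bound by ψ
  obtain ⟨C'₀, hC'₀, hmem⟩ := Atl.Nice.mem_St A hn hψ.nice hτ
  have hlow : ∀ x ∈ D, ψ x - C'₀ ≤ φτ x := by
    refine le_on_of_ae A hD (hψ.nice.cont.sub continuousOn_const) hφD ?_
    filter_upwards [hsol.max _ (hmem C'₀ le_rfl C hC)] with x hx _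
    exact hx
  -- stage one
  obtain ⟨M, δ₀, hM, hδ₀, hδ₀d, hst⟩ := hstage D ψ2 ε hψ.nice2 τ C φτ hτ hC hsol.st hsol.max
    (B₀ / 2) (by positivity) (by nlinarith)
  -- constants depending on τ
  set Cs : ℝ := κ₀ + B₀ * (|J| + C₀) with hCs
  have hCs0 : 0 ≤ Cs := by positivity
  set j₀ : ℝ := Real.exp ((C'₀ + 2 * (Cs + M) / B₀) / a₀) with hj₀
  have hScomp : IsCompact {x | x ∈ D ∧ -j₀ ≤ ψ x} := hψ.nice.cpt _
  -- the compact set containing the maximum point and the base point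
  have hK'comp : IsCompact ({x | x ∈ D ∧ -j₀ ≤ ψ x} ∪ K) := hScomp.union hK
  have hK'D : {x | x ∈ D ∧ -j₀ ≤ ψ x} ∪ K ⊆ D := by
    rintro x (hx | hx)
    · exact hx.1
    · exact hKD hx
  choose r hr hr' using fun j => exists_radius A hD hsm hK'comp hK'D j
  -- choice of δ
  have hev : ∀ᶠ δ : ℝ in 𝓝[>] 0, 0 < δ ∧ δ < δ₀ ∧ (∀ j, 2 * δ < r j) ∧ B₀ * δ ^ 2 ≤ 1 / 2 ∧
      (Cg + Cl + 2 * n * B₀) * δ ^ 2 ≤ 1 := by
    refine eventually_and.mpr ⟨self_mem_nhdsWithin, ?_⟩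
    refine eventually_and.mpr ⟨Filter.mem_of_superset (Ioo_mem_nhdsGT hδ₀) fun δ h => h.2, ?_⟩
    refine eventually_and.mpr ⟨?_, ?_⟩
    · rw [eventually_all]
      intro j
      filter_upwards [Ioo_mem_nhdsGT (half_pos (hr j))] with δ hδ
      linarith [hδ.2]
    · exact eventually_and.mpr ⟨exists_small B₀ (by norm_num), exists_small _ one_pos⟩
  obtain ⟨δ, hδ, hδδ₀, hδr, hb1, hs1⟩ := hev.exists
  have hδd₁ : δ ≤ d₁ := hδδ₀.le.trans hδ₀d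
  have hδ18 : δ ≤ 1 / 8 := hδd₁.trans hd18
  have hc : 0 < δ ^ 2 := by positivity
  have hκ : 0 ≤ κ₀ * δ ^ 2 := by positivity
  -- continuity of the glued transform
  have hglc : ContinuousOn (A.gl φτ (P1 (δ ^ 2)) δ (κ₀ * δ ^ 2)) D :=
    continuousOn_gl A hn hD hsm hp hc hδ hδ18 hκ
      (hcmp φτ hp (P1 (δ ^ 2)) (δ ^ 2) δ (Or.inl rfl) hc hδ hδd₁)
  have hψ2c : ContinuousOn ψ2 D := hψ.nice2.cont
  have hUc : ContinuousOn (UU A φτ ψ2 δ (κ₀ * δ ^ 2) (B₀ * δ ^ 2)) D := by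
    unfold UU
    exact ((continuousOn_const.mul hglc).add (continuousOn_const.mul hψ2c)).sub hφD
  have hstD : ∀ x ∈ D, (1 - B₀ / 2 * δ ^ 2) * A.gl φτ (P1 (δ ^ 2)) δ (κ₀ * δ ^ 2) x +
      B₀ / 2 * δ ^ 2 * ψ2 x - M * δ ^ 2 ≤ φτ x := by
    refine le_on_of_ae A hD (((continuousOn_const.mul hglc).add
      (continuousOn_const.mul hψ2c)).sub continuousOn_const) hφD ?_
    filter_upwards [hst δ hδ hδδ₀] with x hx _
    exact hx
  -- bounds for φτ on D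
  have hφle : ∀ x ∈ D, φτ x ≤ C₀ := fun x hx => (hb x hx).1.trans (le_abs_self _)
  have hψφ : ∀ x ∈ D, ψ2 x - φτ x ≤ C₀ := fun x hx => by
    have := (hb x hx).2
    have h2 := le_abs_self C₀'
    linarith
  -- value at the base point
  have hx₁C : x₁ ∈ A.Ci i 2 := A.Bi_subset_Ci i 2 hx₁B
  obtain ⟨y₁, hy₁, hWu₁⟩ := att_of_mem A hn hD hsm hp hx₁D hx₁C hc hδ hδ18
  have hUge := UU_ge A (φ := φτ) (ψ2 := ψ2) hκ₀.le hb1 hB₀.le hx₁B (by rw [hex₁]; exact hz1)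
  have hq₁ : -(|J| + C₀) ≤ ψ2 x₁ - φτ x₁ := by
    have h1 := hJ x₁ hzK
    have h2 := hφle x₁ hx₁D
    have h3 := le_abs_self J
    linarith
  have hBq : -(B₀ * (|J| + C₀) * δ ^ 2) ≤ B₀ * δ ^ 2 * (ψ2 x₁ - φτ x₁) := by
    have h1 := mul_le_mul_of_nonneg_left hq₁ (by positivity : 0 ≤ B₀ * δ ^ 2)
    linarith
  have hUlow : -(Cs * δ ^ 2) ≤ UU A φτ ψ2 δ (κ₀ * δ ^ 2) (B₀ * δ ^ 2) x₁ := by
    have h1 : 0 ≤ (1 - B₀ * δ ^ 2) *
        (WW (A.pot i φτ) (P1 (δ ^ 2)) δ (A.e i x₁) - A.pot i φτ (A.e i x₁)) :=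
      mul_nonneg (by linarith) (by linarith)
    have h2 : Cs * δ ^ 2 = κ₀ * δ ^ 2 + B₀ * (|J| + C₀) * δ ^ 2 := by rw [hCs]; ring
    linarith
  -- the maximum point
  obtain ⟨x₀, ⟨hx₀D, hx₀ψ⟩, hx₀max⟩ := exists_max A hψ hB₀ hδ hb1 hlow hstD hUc hx₁D hUlow hM hCs0
  obtain ⟨i₀, hi₀, hgl⟩ := A.exists_eq_glue (fun j => A.tr φτ (P1 (δ ^ 2)) δ j) (κ₀ * δ ^ 2) x₀
  rw [← A.gl_eq_glue] at hgl
  have hi₀C : x₀ ∈ A.Ci i₀ 2 := A.Bi_subset_Ci i₀ 2 hi₀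
  obtain ⟨y₀, hy₀, hWu₀⟩ := att_of_mem A hn hD hsm hp hx₀D hi₀C hc hδ hδ18
  obtain ⟨Kn, Dk, ψk, hDk, hDkD, hψks, hψkle, hψkeq, hψklev⟩ := hψ.nice2.pieces
  obtain ⟨k, hk, hkeq⟩ := hψkeq x₀ hx₀D
  have hz₀t : A.e i₀ x₀ ∈ (A.e i₀).target := (A.e i₀).map_source hi₀.1
  have hsym₀ : (A.e i₀).symm (A.e i₀ x₀) = x₀ := (A.e i₀).left_inv hi₀.1
  have hpsd := psd_at_max A hn hD (ψ2 := ψ2) (ψk := ψk k) hsm hp hκ₀.le hB₀ (by linarith) hδ hδ18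
    hb1 (hDk k) (hψks k) (hψkle k) hx₀D hk hkeq hi₀ hgl
    (hψklev k i₀ (A.e i₀ x₀) hz₀t (by linarith [hi₀.2]) (by rw [hsym₀]; exact hk)) hx₀max
  -- the local estimate
  obtain ⟨hballG, hmod⟩ := hr' i₀ (A.e i₀ x₀) hi₀C.2
    (by rw [hsym₀]; exact Or.inl ⟨hx₀D, hx₀ψ⟩)
  set U : Set (V n) := Metric.ball (A.e i₀ x₀) (r i₀) with hU
  have hUG : U ⊆ GD A D i₀ := Metric.ball_subset_closedBall.trans hballG
  have hUt : U ⊆ (A.e i₀).target := fun y hy => (hUG hy).2.1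
  have hzU : A.e i₀ x₀ ∈ shr U (2 * δ) := Metric.closedBall_subset_ball (hδr i₀)
  have hspsh : SPsh U (A.pot i₀ φτ) :=
    spsh_of_pshd hn Metric.isOpen_ball ((hp i₀).mono_set Metric.isOpen_ball
      (hUG.trans (GD_subset A D i₀))) ((contDiffOn_pot A hsm i₀).mono hUG)
  have hneg : -y₀ ≤ ℓ := by
    refine neg_le_ell (g := A.g i₀) (φ := A.lc i₀ φτ) (f := A.f i₀) (τ := τ) hn
      Metric.isOpen_ball hspsh ((A.g_smooth i₀).continuousOn.mono hUt)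
      ((A.f_smooth i₀).continuousOn.mono hUt) (fun y hy => A.f_pos i₀ y (hUt hy))
      (fun y _ => by rw [Atl.pot]; ring) hτ.le hτ1
      (fun y hy => hsol.eq i₀ y (hUt hy) (hUG hy).2.2) hδ hzU hy₀ hCg0.le hCl0
      (fun t ht htδ => hCg i₀ _ hi₀C.2 t ht (htδ.trans (by linarith)))
      (fun t ht htδ => hCl i₀ _ hi₀C.2 t ht (htδ.trans (by linarith))) hB₀ hε ?_ hb1 hs1 hpsd
    rw [Atl.lc, hsym₀, hm₁]
    refine mul_le_mul ?_ (hF i₀ _ (by linarith [hi₀.2])).2 (A.f_pos i₀ _ hz₀t).le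
      (Real.exp_pos _).le
    refine Real.exp_le_exp.mpr ?_
    have h1 := hφle x₀ hx₀D
    calc τ * φτ x₀ ≤ τ * C₀ := mul_le_mul_of_nonneg_left h1 hτ.le
      _ ≤ 1 * C₀ := mul_le_mul_of_nonneg_right hτ1 hC₀0
      _ = C₀ := one_mul _
  -- upper bound for the maximum
  have hGDo : IsOpen (GD A D i₀) := isOpen_GD A hD i₀
  have hWle := WW_sub_le (D := DA 1 (A.pot i₀ φτ) (A.e i₀ x₀)) (ε := 1) (ℓ := ℓ)
    (Metric.isOpen_ball : IsOpen (Atl.B3 n)) (hp i₀) hGDo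
    ((contDiffOn_pot A hsm i₀).of_le two_le_top) hδ (mem_shr_B3 hδ18 hi₀C.2)
    ((Metric.closedBall_subset_closedBall (by linarith [hδr i₀])).trans hballG)
    (fun y hy => hmod y (Metric.closedBall_subset_closedBall (by linarith [hδr i₀]) hy))
    hy₀ hneg
  have hUle := UU_le A (φ := φτ) (ψ2 := ψ2) hκ₀.le hb1 hB₀.le hi₀ hgl hWu₀ (hψφ x₀ hx₀D)
  have hUmax := hx₀max x₁ hx₁D
  -- conclusion at the base point
  by_contra hcon
  have hcon' := not_le.mp hcon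
  have hD1 : 1 < DA 1 (A.pot i φτ) z := by
    have h1 : 0 < Real.exp (4 * S - 1) / (2 * aa n) := by positivity
    linarith
  obtain ⟨hballG₁, hmod₁⟩ := hr' i z (by linarith) (Or.inr hzK)
  rw [hex₁] at hy₁ hWu₁ hUge
  have hWge := le_WW_sub (D := DA 1 (A.pot i φτ) z) (ε := 1)
    (Metric.isOpen_ball : IsOpen (Atl.B3 n)) (hp i) (isOpen_GD A hD i)
    ((contDiffOn_pot A hsm i).of_le two_le_top) hδ (mem_shr_B3 hδ18 (by linarith))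
    ((Metric.closedBall_subset_closedBall (by linarith [hδr i])).trans hballG₁)
    (fun y hy => hmod₁ y (Metric.closedBall_subset_closedBall (by linarith [hδr i]) hy))
    hy₁ hD1
  have hfin : (WW (A.pot i φτ) (P1 (δ ^ 2)) δ z - A.pot i φτ z) ≤ 2 * S * δ ^ 2 := by
    have h1 : (1 - B₀ * δ ^ 2) * (WW (A.pot i φτ) (P1 (δ ^ 2)) δ z - A.pot i φτ z) ≤
        S * δ ^ 2 := by
      have h2 : S * δ ^ 2 = δ ^ 2 * (3 / 2 + 2 * aa n * 1 + ℓ) + B₀ * δ ^ 2 * C₀ +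
          κ₀ * δ ^ 2 + B₀ * (|J| + C₀) * δ ^ 2 := by rw [hS]; ring
      linarith
    have h3 : (1 / 2 : ℝ) * (WW (A.pot i φτ) (P1 (δ ^ 2)) δ z - A.pot i φτ z) ≤
        (1 - B₀ * δ ^ 2) * (WW (A.pot i φτ) (P1 (δ ^ 2)) δ z - A.pot i φτ z) :=
      mul_le_mul_of_nonneg_right (by linarith) (by linarith)
    linarith
  have hlog : (1 + Real.log (2 * (aa n * (DA 1 (A.pot i φτ) z - 1)))) / 2 ≤ 2 * S := by
    refine le_of_mul_le_mul_left ?_ hc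
    linarith
  have hpos : 0 < 2 * (aa n * (DA 1 (A.pot i φτ) z - 1)) := by
    have := mul_pos ha (by linarith : 0 < DA 1 (A.pot i φτ) z - 1)
    linarith
  have hlog2 : Real.log (2 * (aa n * (DA 1 (A.pot i φτ) z - 1))) ≤ 4 * S - 1 := by linarith
  rw [Real.log_le_iff_le_exp hpos] at hlog2
  have h4 : DA 1 (A.pot i φτ) z - 1 ≤ Real.exp (4 * S - 1) / (2 * aa n) := by
    rw [le_div_iff₀ (by positivity)]
    linarith
  linarith

end Pool.Agent.Helper76.AM
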