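import Pool.Agent.Helper29.AM.LA2

/-!
# Project AM, section 9: the matrix inequality of (9.1 b) and one-variable inequalities

`matrix_bound`: `(1-b) H + b₁ ≤ K`, `log det K ≤ log det H + κ`, `κ + 2nb ≤ 1` give
`b₁ tr H⁻¹ ≤ 2 (κ + 2nb)`; and then `tr H ≤ n (2^n m C^{n-1})`.
-/

set_option autoImplicit false

namespace Pool.Agent.Helper76.AM

open MeasureTheory Set Filter Topology
open Pool.Agent.Helper29.AM
open scoped ComplexOrder

variable {n : ℕ}

/-- `α e^{2x} - x ≥ (1 + log (2α))/2` -/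
theorem exp_sub_ge {α : ℝ} (hα : 0 < α) (x : ℝ) :
    (1 + Real.log (2 * α)) / 2 ≤ α * Real.exp (2 * x) - x := by
  have h := Real.add_one_le_exp (2 * x + Real.log (2 * α))
  rw [Real.exp_add, Real.exp_log (by positivity)] at h
  nlinarith

/-- `(1-b)^{-n} ≤ e^{2nb}` for `0 ≤ b ≤ 1/2`, in the form `e^{-2nb} ≤ (1-b)^n` -/
theorem exp_neg_le_pow {b : ℝ} (hb : 0 ≤ b) (hb2 : b ≤ 1 / 2) (n : ℕ) :
    Real.exp (-(2 * n * b)) ≤ (1 - b) ^ n := by
  have h1 : Real.exp (-(2 * b)) ≤ 1 - b := by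
    have h2 : (1 - b)⁻¹ ≤ Real.exp (2 * b) := by
      have h3 : (1 - b)⁻¹ ≤ 1 + 2 * b := by
        rw [inv_le_iff_one_le_mul₀ (by linarith)]
        nlinarith
      exact h3.trans (by linarith [Real.add_one_le_exp (2 * b)])
    rw [Real.exp_neg]
    exact inv_le_of_inv_le₀ (by linarith) h2
  calc Real.exp (-(2 * n * b)) = Real.exp (-(2 * b)) ^ n := by
        rw [← Real.exp_nat_mul]; congr 1; ring
    _ ≤ (1 - b) ^ n := pow_le_pow_left₀ (Real.exp_pos _).le h1 n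

/-- `e^x - 1 ≤ 2x` on `[0,1]` -/
theorem exp_sub_one_le {x : ℝ} (h0 : 0 ≤ x) (h1 : x ≤ 1) : Real.exp x - 1 ≤ 2 * x := by
  have h := Real.abs_exp_sub_one_sub_id_le (by rwa [abs_of_nonneg h0] : |x| ≤ 1)
  have h2 := (abs_le.mp h).2
  nlinarith

/-- `(1-b) H + b₁` -/
noncomputable def mix (b b₁ : ℝ) (H : Mat n) : Mat n :=
  ((1 - b : ℝ) : ℂ) • H + ((b₁ : ℝ) : ℂ) • (1 : Mat n)

theorem det_real_smul (r : ℝ) (H : Mat n) :
    (((r : ℝ) : ℂ) • H).det.re = r ^ n * H.det.re := by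
  rw [Matrix.det_smul, Fintype.card_fin, ← Complex.ofReal_pow, Complex.re_ofReal_mul]

theorem det_mix_ge {H : Mat n} (hH : H.PosDef) {b b₁ : ℝ} (hb : 0 ≤ b) (hb2 : b ≤ 1 / 2)
    (hb₁ : 0 ≤ b₁) :
    (1 - b) ^ n * (H.det.re * (1 + b₁ * (Matrix.trace H⁻¹).re)) ≤ (mix b b₁ H).det.re := by
  have hb' : 0 < 1 - b := by linarith
  have h0 : mix b b₁ H = ((1 - b : ℝ) : ℂ) • (H + ((b₁ / (1 - b) : ℝ) : ℂ) • (1 : Mat n)) := by
    rw [mix, smul_add, smul_smul, ← Complex.ofReal_mul, mul_div_cancel₀ _ hb'.ne']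
  rw [h0, det_real_smul]
  refine mul_le_mul_of_nonneg_left ?_ (pow_nonneg hb'.le _)
  have h1 := det_add_one_ge hH (c := b₁ / (1 - b)) (div_nonneg hb₁ hb'.le)
  refine le_trans ?_ h1
  have hd : 0 ≤ H.det.re := (Complex.pos_iff.mp hH.det_pos).1.le
  refine mul_le_mul_of_nonneg_left ?_ hd
  have ht := trace_inv_nonneg hH
  have h2 : b₁ ≤ b₁ / (1 - b) := by
    rw [le_div_iff₀ hb']
    nlinarith
  nlinarith

/-- the matrix inequality of (9.1 b) -/
theorem matrix_bound {H K : Mat n} (hH : H.PosDef) {b b₁ κ m : ℝ} (hb : 0 ≤ b)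
    (hb2 : b ≤ 1 / 2) (hb₁ : 0 ≤ b₁) (hκ : 0 ≤ κ) (hs : κ + 2 * n * b ≤ 1)
    (hK : (K - mix b b₁ H).PosSemidef) (hlog : Real.log K.det.re ≤ Real.log H.det.re + κ)
    (hm : K.det.re ≤ m) :
    b₁ * (Matrix.trace H⁻¹).re ≤ 2 * (κ + 2 * n * b) ∧ H.det.re ≤ 2 ^ n * m := by
  have hb' : 0 < 1 - b := by linarith
  have hd : 0 < H.det.re := (Complex.pos_iff.mp hH.det_pos).1
  have ht := trace_inv_nonneg hH
  have hmixpsd : (mix b b₁ H).PosSemidef := by
    have h1 : (((1 - b : ℝ) : ℂ) • H).PosSemidef :=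
      hH.posSemidef.smul (by rw [Complex.nonneg_iff]; simp; linarith)
    have h2 : (((b₁ : ℝ) : ℂ) • (1 : Mat n)).PosSemidef :=
      Matrix.PosSemidef.one.smul (by rw [Complex.nonneg_iff]; simp; linarith)
    exact h1.add h2
  have h1 := det_mix_ge hH hb hb2 hb₁
  have h2 := det_mono hmixpsd hK
  have h3 := h1.trans h2
  have hpow : 0 < (1 - b) ^ n := pow_pos hb' n
  have hfac : 1 ≤ 1 + b₁ * (Matrix.trace H⁻¹).re := by nlinarith [mul_nonneg hb₁ ht]
  have hKpos : 0 < K.det.re := lt_of_lt_of_le (by positivity) h3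
  constructor
  · have h4 : Real.log ((1 - b) ^ n * (H.det.re * (1 + b₁ * (Matrix.trace H⁻¹).re))) ≤
        Real.log H.det.re + κ := (Real.log_le_log (by positivity) h3).trans hlog
    rw [Real.log_mul hpow.ne' (by positivity), Real.log_mul hd.ne' (by positivity)] at h4
    have h5 : -(2 * n * b) ≤ Real.log ((1 - b) ^ n) := by
      rw [Real.le_log_iff_exp_le hpow]
      exact exp_neg_le_pow hb hb2 n
    have h6 : Real.log (1 + b₁ * (Matrix.trace H⁻¹).re) ≤ κ + 2 * n * b := by linarith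
    rw [Real.log_le_iff_le_exp (by positivity)] at h6
    have h7 := exp_sub_one_le (x := κ + 2 * n * b) (by positivity) hs
    linarith
  · have h4 : (1 - b) ^ n * H.det.re ≤ m := by
      refine le_trans ?_ (h3.trans hm)
      refine mul_le_mul_of_nonneg_left ?_ hpow.le
      nlinarith
    have h5 : (1 / 2 : ℝ) ^ n ≤ (1 - b) ^ n := pow_le_pow_left₀ (by norm_num) (by linarith) n
    have h6 : (1 / 2 : ℝ) ^ n * H.det.re ≤ m := (mul_le_mul_of_nonneg_right h5 hd.le).trans h4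
    have h7 : (2 : ℝ) ^ n * ((1 / 2 : ℝ) ^ n * H.det.re) = H.det.re := by
      rw [← mul_assoc, ← mul_pow]; norm_num
    rw [← h7]
    exact mul_le_mul_of_nonneg_left h6 (by positivity)

end Pool.Agent.Helper76.AM
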