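import Pool.Agent.Helper76.AM.UL9

/-!
# Project AM, section 9: proof of the uniform Laplacian bound (9.1)
-/

set_option autoImplicit false

namespace Pool.Agent.Helper76.AM

open MeasureTheory Set Filter Topology
open Pool.Agent.Helper29.AM
open scoped ComplexOrder

variable {X : Type} [TopologicalSpace X] [MeasurableSpace X] {n N : ℕ} (A : Atl X n N)

/-- lower bound of `UU` at a point of `D` in a chart ball `‖z‖ ≤ 1` -/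
theorem UU_ge {φ ψ2 : X → ℝ} {δ κ₀ B₀ : ℝ} (hκ : 0 ≤ κ₀) (hb1 : B₀ * δ ^ 2 ≤ 1 / 2)
    (hB : 0 ≤ B₀) {x : X} {i : Fin N} (hi : x ∈ A.Bi i 2) (hz1 : ‖A.e i x‖ ≤ 1) :
    (1 - B₀ * δ ^ 2) * (WW (A.pot i φ) (P1 (δ ^ 2)) δ (A.e i x) - A.pot i φ (A.e i x)) -
      κ₀ * δ ^ 2 + B₀ * δ ^ 2 * (ψ2 x - φ x) ≤ UU A φ ψ2 δ (κ₀ * δ ^ 2) (B₀ * δ ^ 2) x := by
  have h1 := A.le_glue (fun j => A.tr φ (P1 (δ ^ 2)) δ j) (κ₀ * δ ^ 2) hi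
  rw [← A.gl_eq_glue, Atl.tr] at h1
  have hb0 : 0 ≤ B₀ * δ ^ 2 := by positivity
  have h4 := mul_le_mul_of_nonneg_left h1 (by linarith : 0 ≤ 1 - B₀ * δ ^ 2)
  have hpot : A.pot i φ (A.e i x) = A.g i (A.e i x) + φ x := by
    rw [Atl.pot, Atl.lc, (A.e i).left_inv hi.1]
  have h5 : ‖A.e i x‖ ^ 2 ≤ 1 := by nlinarith [norm_nonneg (A.e i x)]
  have h6 : (1 - B₀ * δ ^ 2) * (κ₀ * δ ^ 2 * ‖A.e i x‖ ^ 2) ≤ κ₀ * δ ^ 2 := by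
    calc (1 - B₀ * δ ^ 2) * (κ₀ * δ ^ 2 * ‖A.e i x‖ ^ 2)
        ≤ 1 * (κ₀ * δ ^ 2 * 1) := by
          refine mul_le_mul (by linarith) ?_ (by positivity) zero_le_one
          exact mul_le_mul_of_nonneg_left h5 (by positivity)
      _ = κ₀ * δ ^ 2 := by ring
  unfold UU
  rw [hpot]
  linarith

/-- upper bound of `UU` at a point where the maximum defining `gl` is attained in the chart `i` -/
theorem UU_le {φ ψ2 : X → ℝ} {δ κ₀ B₀ C₀ : ℝ} (hκ : 0 ≤ κ₀) (hb1 : B₀ * δ ^ 2 ≤ 1 / 2)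
    (hB : 0 ≤ B₀) {x : X} {i : Fin N} (hi : x ∈ A.Bi i 2)
    (hgl : A.gl φ (P1 (δ ^ 2)) δ (κ₀ * δ ^ 2) x =
      A.tr φ (P1 (δ ^ 2)) δ i x - κ₀ * δ ^ 2 * ‖A.e i x‖ ^ 2)
    (hWu : A.pot i φ (A.e i x) ≤ WW (A.pot i φ) (P1 (δ ^ 2)) δ (A.e i x))
    (hC : ψ2 x - φ x ≤ C₀) :
    UU A φ ψ2 δ (κ₀ * δ ^ 2) (B₀ * δ ^ 2) x ≤
      (WW (A.pot i φ) (P1 (δ ^ 2)) δ (A.e i x) - A.pot i φ (A.e i x)) + B₀ * δ ^ 2 * C₀ := by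
  have hb0 : 0 ≤ B₀ * δ ^ 2 := by positivity
  have hpot : A.pot i φ (A.e i x) = A.g i (A.e i x) + φ x := by
    rw [Atl.pot, Atl.lc, (A.e i).left_inv hi.1]
  unfold UU
  rw [hgl, Atl.tr]
  have h6 : 0 ≤ (1 - B₀ * δ ^ 2) * (κ₀ * δ ^ 2 * ‖A.e i x‖ ^ 2) :=
    mul_nonneg (by linarith) (by positivity)
  have h7 := mul_le_mul_of_nonneg_left hC hb0
  have h8 : 0 ≤ B₀ * δ ^ 2 * (WW (A.pot i φ) (P1 (δ ^ 2)) δ (A.e i x) - A.pot i φ (A.e i x)) :=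
    mul_nonneg hb0 (by linarith)
  rw [hpot] at h8 ⊢
  nlinarith

variable [CompactSpace X] [T2Space X] [BorelSpace X]

/-- the maximum point of `UU` over `D` lies in a compact subset independent of `δ` -/
theorem exists_max {D : Set X} {ψ ψ2 : X → ℝ} {ε a₀ : ℝ} (hψ : A.NicePair D ψ ψ2 ε a₀)
    {φ : X → ℝ} {B₀ C' M Cs δ κ : ℝ} (hB : 0 < B₀) (hδ : 0 < δ) (hb1 : B₀ * δ ^ 2 ≤ 1 / 2)
    (hlow : ∀ x ∈ D, ψ x - C' ≤ φ x)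
    (hst : ∀ x ∈ D, (1 - B₀ / 2 * δ ^ 2) * A.gl φ (P1 (δ ^ 2)) δ κ x +
      B₀ / 2 * δ ^ 2 * ψ2 x - M * δ ^ 2 ≤ φ x)
    (hcont : ContinuousOn (UU A φ ψ2 δ κ (B₀ * δ ^ 2)) D) {x₁ : X} (hx₁ : x₁ ∈ D)
    (hx₁U : -(Cs * δ ^ 2) ≤ UU A φ ψ2 δ κ (B₀ * δ ^ 2) x₁) (hM : 0 ≤ M) (hCs : 0 ≤ Cs) :
    ∃ x₀ ∈ {x | x ∈ D ∧ -(Real.exp ((C' + 2 * (Cs + M) / B₀) / a₀)) ≤ ψ x},
      ∀ y ∈ D, UU A φ ψ2 δ κ (B₀ * δ ^ 2) y ≤ UU A φ ψ2 δ κ (B₀ * δ ^ 2) x₀ := by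
  have hδ2 : 0 < δ ^ 2 := by positivity
  have hb : 0 < B₀ * δ ^ 2 := by positivity
  -- points with large value
  have key : ∀ y ∈ D, -(Cs * δ ^ 2) ≤ UU A φ ψ2 δ κ (B₀ * δ ^ 2) y →
      -(Real.exp ((C' + 2 * (Cs + M) / B₀) / a₀)) ≤ ψ y := by
    intro y hy hU
    have h1 := hst y hy
    unfold UU at hU
    set w := A.gl φ (P1 (δ ^ 2)) δ κ y with hw
    -- q = ψ2 - φ ≥ -2(Cs+M)/B₀
    have h2 : -(2 * (Cs + M) / B₀) ≤ ψ2 y - φ y := by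
      have h3 : (1 - B₀ * δ ^ 2) * ((1 - B₀ / 2 * δ ^ 2) * (w - φ y) +
          B₀ / 2 * δ ^ 2 * (ψ2 y - φ y)) ≤ M * δ ^ 2 := by
        have h4 : (1 - B₀ / 2 * δ ^ 2) * (w - φ y) + B₀ / 2 * δ ^ 2 * (ψ2 y - φ y) ≤
            M * δ ^ 2 := by linarith
        calc _ ≤ (1 - B₀ * δ ^ 2) * (M * δ ^ 2) := mul_le_mul_of_nonneg_left h4 (by linarith)
          _ ≤ 1 * (M * δ ^ 2) := mul_le_mul_of_nonneg_right (by linarith) (by positivity)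
          _ = M * δ ^ 2 := one_mul _
      have h5 : -(Cs * δ ^ 2) ≤ (1 - B₀ / 2 * δ ^ 2) *
          ((1 - B₀ * δ ^ 2) * (w - φ y) + B₀ * δ ^ 2 * (ψ2 y - φ y)) := by
        have h6 : -(Cs * δ ^ 2) ≤ (1 - B₀ * δ ^ 2) * (w - φ y) +
            B₀ * δ ^ 2 * (ψ2 y - φ y) := by linarith
        have h7 := mul_le_mul_of_nonneg_left h6 (by nlinarith : 0 ≤ 1 - B₀ / 2 * δ ^ 2)
        have h8 : 0 ≤ B₀ / 2 * δ ^ 2 * (Cs * δ ^ 2) := by positivity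
        nlinarith
      have h9 : -((Cs + M) * δ ^ 2) ≤ B₀ / 2 * δ ^ 2 * (ψ2 y - φ y) := by
        have h10 : (1 - B₀ / 2 * δ ^ 2) *
            ((1 - B₀ * δ ^ 2) * (w - φ y) + B₀ * δ ^ 2 * (ψ2 y - φ y)) -
            (1 - B₀ * δ ^ 2) * ((1 - B₀ / 2 * δ ^ 2) * (w - φ y) +
            B₀ / 2 * δ ^ 2 * (ψ2 y - φ y)) = B₀ / 2 * δ ^ 2 * (ψ2 y - φ y) := by ring
        linarith
      have h11 : -(Cs + M) ≤ B₀ / 2 * (ψ2 y - φ y) := by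
        refine le_of_mul_le_mul_right ?_ hδ2
        linarith
      rw [← neg_div, div_le_iff₀ hB]
      linarith
    have h12 := hlow y hy
    have h13 := hψ.eq y hy
    have hψ1 := hψ.nice.le y
    have h14 : a₀ * Real.log (-ψ y) ≤ C' + 2 * (Cs + M) / B₀ := by linarith
    have h15 : Real.log (-ψ y) ≤ (C' + 2 * (Cs + M) / B₀) / a₀ := by
      rw [le_div_iff₀ hψ.pos]
      linarith
    rw [Real.log_le_iff_le_exp (by linarith)] at h15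
    linarith
  set S : Set X := {x | x ∈ D ∧ -(Real.exp ((C' + 2 * (Cs + M) / B₀) / a₀)) ≤ ψ x} with hS
  have hScomp : IsCompact S := hψ.nice.cpt _
  have hx₁S : x₁ ∈ S := ⟨hx₁, key x₁ hx₁ hx₁U⟩
  obtain ⟨x₀, hx₀S, hx₀⟩ := hScomp.exists_isMaxOn ⟨x₁, hx₁S⟩ (hcont.mono fun y hy => hy.1)
  refine ⟨x₀, hx₀S, fun y hy => ?_⟩
  by_cases hyS : y ∈ S
  · exact hx₀ hyS
  · have h1 : UU A φ ψ2 δ κ (B₀ * δ ^ 2) y < -(Cs * δ ^ 2) := by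
      by_contra hcon
      exact hyS ⟨hy, key y hy (not_lt.mp hcon)⟩
    have h2 : UU A φ ψ2 δ κ (B₀ * δ ^ 2) x₁ ≤ UU A φ ψ2 δ κ (B₀ * δ ^ 2) x₀ := hx₀ hx₁S
    linarith

end Pool.Agent.Helper76.AM
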