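import Pool.Agent.Helper76.AM.UL1
import Pool.Agent.Helper29.AM.KL1

/-!
# Project AM, section 9: the transform of a function which is `C²` near the point (9.1 c), (9.1 d)

If `|Δu - D| ≤ ε` on `closedBall z t` then `|Φ_u(z,t) - u(z) - a D t²| ≤ a ε t²` and
`λ(z,t) = t d/dt Φ_u(z,t)` is within `2 a ε t²` of `2 a D t²`. For the transform with the penalty (V1),
`c = δ²`: at the minimiser `t = δe^x`, `λ = c(1 - e^x) ≤ c`.
-/

set_option autoImplicit false

namespace Pool.Agent.Helper76.AM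

open MeasureTheory Set Filter Topology
open Pool.Agent.Helper29.AM
open scoped ComplexOrder

variable {n : ℕ} {Ω : Set (V n)} {u : V n → ℝ}

theorem M1_bounds {v : V n → ℝ} (hv : ContinuousOn v Ω) {z : V n} {t : ℝ}
    (ht : 0 ≤ t) (hz : z ∈ shr Ω t) {D ε : ℝ}
    (hD : ∀ y ∈ Metric.closedBall z t, |v y - D| ≤ ε) :
    aa n * (D - ε) ≤ M1 (sc t) v z ∧ M1 (sc t) v z ≤ aa n * (D + ε) := by
  have hmem : ∀ η : V n, ‖η‖ ≤ 1 → z + (sc t : Lin n) η ∈ Metric.closedBall z t := by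
    intro η hη
    rw [Metric.mem_closedBall, dist_eq_norm, add_sub_cancel_left, sc_apply, norm_smul,
      Complex.norm_real, Real.norm_of_nonneg ht]
    exact mul_le_of_le_one_right ht hη
  have hcont : ContinuousOn (fun η : V n => v (z + (sc t : Lin n) η)) (Metric.closedBall 0 1) := by
    refine hv.comp (by fun_prop) ?_
    intro η hη
    exact hz (hmem η (by simpa using hη))
  have hint : Integrable (fun η : V n => rho1 η * v (z + (sc t : Lin n) η)) := by
    have h1 : IntegrableOn (fun η : V n => rho1 η * v (z + (sc t : Lin n) η))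
        (Metric.closedBall 0 1) := by
      refine ContinuousOn.integrableOn_compact (isCompact_closedBall 0 1) ?_
      exact (rho1_contDiff.continuous.continuousOn).mul hcont
    refine (integrableOn_iff_integrable_of_support_subset ?_).mp h1
    intro η hη
    by_contra hc
    have h2 : 1 ≤ ‖η‖ := by
      have h3 : ¬ ‖η‖ ≤ 1 := by simpa using hc
      linarith [not_le.mp h3]
    exact hη (by simp [rho1_eq_zero h2])
  have hconst : ∀ r : ℝ, aa n * r = ∫ η : V n, rho1 η * r := by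
    intro r
    rw [aa, integral_mul_const]
  constructor
  · rw [hconst, M1]
    refine integral_mono (rho1_integrable.mul_const _) hint ?_
    intro η
    by_cases hη : ‖η‖ ≤ 1
    · have h1 := abs_le.mp (hD _ (hmem η hη))
      exact mul_le_mul_of_nonneg_left (by linarith [h1.1]) (rho1_nonneg η)
    · simp [rho1_eq_zero (not_le.mp hη).le]
  · rw [hconst, M1]
    refine integral_mono hint (rho1_integrable.mul_const _) ?_
    intro η
    by_cases hη : ‖η‖ ≤ 1
    · have h1 := abs_le.mp (hD _ (hmem η hη))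
      exact mul_le_mul_of_nonneg_left (by linarith [h1.2]) (rho1_nonneg η)
    · simp [rho1_eq_zero (not_le.mp hη).le]

theorem shr_mono {s t : ℝ} (h : s ≤ t) : shr Ω t ⊆ shr Ω s := fun _ hz =>
  (Metric.closedBall_subset_closedBall h).trans hz

/-- second order expansion of the means -/
theorem Phi_sub_bounds (hΩ : IsOpen Ω) (hu : ContDiffOn ℝ 2 u Ω) {z : V n} {t : ℝ}
    (ht : 0 ≤ t) (hz : z ∈ shr Ω t) {D ε : ℝ}
    (hD : ∀ y ∈ Metric.closedBall z t, |DA 1 u y - D| ≤ ε) :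
    aa n * (D - ε) * t ^ 2 ≤ Phi u z t - u z ∧ Phi u z t - u z ≤ aa n * (D + ε) * t ^ 2 := by
  have hcont : ContinuousOn (DA 1 u) Ω := by
    unfold DA
    exact continuousOn_finsetSum _ fun l _ => continuousOn_lev hΩ hu _
  have hder : ∀ s ∈ Icc 0 t, HasDerivAt (fun s : ℝ => Phi u z s)
      (2 * s * M1 (sc s) (DA 1 u) z) s := fun s hs =>
    hasDerivAt_Phi hΩ hu hs.1 (shr_mono hs.2 hz)
  have hbd : ∀ s ∈ Icc 0 t, aa n * (D - ε) ≤ M1 (sc s) (DA 1 u) z ∧
      M1 (sc s) (DA 1 u) z ≤ aa n * (D + ε) := fun s hs =>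
    M1_bounds hcont hs.1 (shr_mono hs.2 hz) fun y hy =>
      hD y (Metric.closedBall_subset_closedBall hs.2 hy)
  constructor
  · have hmono : MonotoneOn (fun s : ℝ => Phi u z s - aa n * (D - ε) * s ^ 2) (Icc 0 t) := by
      refine monotoneOn_of_deriv_nonneg (convex_Icc 0 t) ?_ ?_ ?_
      · exact fun s hs => ((hder s hs).continuousAt.sub (by fun_prop)).continuousWithinAt
      · intro s hs
        rw [interior_Icc] at hs
        exact ((hder s (Ioo_subset_Icc_self hs)).sub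
          ((hasDerivAt_pow 2 s).const_mul (aa n * (D - ε)))).differentiableAt.differentiableWithinAt
      · intro s hs
        rw [interior_Icc] at hs
        have h1 := (hder s (Ioo_subset_Icc_self hs)).sub
          ((hasDerivAt_pow 2 s).const_mul (aa n * (D - ε)))
        have h2 : deriv (fun s : ℝ => Phi u z s - aa n * (D - ε) * s ^ 2) s =
            2 * s * M1 (sc s) (DA 1 u) z - aa n * (D - ε) * ((2 : ℕ) * s ^ (2 - 1)) := h1.deriv
        rw [h2]
        have h3 := (hbd s (Ioo_subset_Icc_self hs)).1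
        have h4 : 0 ≤ s := hs.1.le
        have h5 := mul_le_mul_of_nonneg_left h3 h4
        push_cast
        nlinarith
    have h := hmono (left_mem_Icc.mpr ht) (right_mem_Icc.mpr ht) ht
    simp only [Phi_zero] at h
    linarith
  · have hmono : MonotoneOn (fun s : ℝ => aa n * (D + ε) * s ^ 2 - Phi u z s) (Icc 0 t) := by
      refine monotoneOn_of_deriv_nonneg (convex_Icc 0 t) ?_ ?_ ?_
      · exact fun s hs => (ContinuousAt.sub (by fun_prop) (hder s hs).continuousAt).continuousWithinAt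
      · intro s hs
        rw [interior_Icc] at hs
        exact (((hasDerivAt_pow 2 s).const_mul (aa n * (D + ε))).sub
          (hder s (Ioo_subset_Icc_self hs))).differentiableAt.differentiableWithinAt
      · intro s hs
        rw [interior_Icc] at hs
        have h1 := ((hasDerivAt_pow 2 s).const_mul (aa n * (D + ε))).sub
          (hder s (Ioo_subset_Icc_self hs))
        have h2 : deriv (fun s : ℝ => aa n * (D + ε) * s ^ 2 - Phi u z s) s =
            aa n * (D + ε) * ((2 : ℕ) * s ^ (2 - 1)) - 2 * s * M1 (sc s) (DA 1 u) z := h1.deriv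
        rw [h2]
        have h3 := (hbd s (Ioo_subset_Icc_self hs)).2
        have h4 : 0 ≤ s := hs.1.le
        have h5 := mul_le_mul_of_nonneg_left h3 h4
        push_cast
        nlinarith
    have h := hmono (left_mem_Icc.mpr ht) (right_mem_Icc.mpr ht) ht
    simp only [Phi_zero] at h
    linarith

/-- `λ(z,δe^x)` is within `2aεt²` of `2aDt²` -/
theorem deriv_Phi_exp_ge (hΩ : IsOpen Ω) (hu : ContDiffOn ℝ 2 u Ω) {z : V n} {δ x : ℝ}
    (hδ : 0 < δ) (hz : z ∈ shr Ω (δ * Real.exp x)) {D ε : ℝ}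
    (hD : ∀ y ∈ Metric.closedBall z (δ * Real.exp x), |DA 1 u y - D| ≤ ε) :
    2 * (aa n * (D - ε) * (δ * Real.exp x) ^ 2) ≤
      deriv (fun y => Phi u z (δ * Real.exp y)) x := by
  have hcont : ContinuousOn (DA 1 u) Ω := by
    unfold DA
    exact continuousOn_finsetSum _ fun l _ => continuousOn_lev hΩ hu _
  have ht : 0 < δ * Real.exp x := by positivity
  have h1 := hasDerivAt_Phi hΩ hu ht.le hz
  have h2 : HasDerivAt (fun y : ℝ => δ * Real.exp y) (δ * Real.exp x) x :=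
    (Real.hasDerivAt_exp x).const_mul δ
  have h3 : HasDerivAt (fun y => Phi u z (δ * Real.exp y))
      (2 * (δ * Real.exp x) * M1 (sc (δ * Real.exp x)) (DA 1 u) z * (δ * Real.exp x)) x :=
    HasDerivAt.comp (h := fun y : ℝ => δ * Real.exp y) (h₂ := fun s : ℝ => Phi u z s) x h1 h2
  rw [h3.deriv]
  have h4 := (M1_bounds hcont ht.le hz hD).1
  have h5 := mul_le_mul_of_nonneg_left h4 (mul_nonneg ht.le ht.le)
  nlinarith

theorem deriv_P1 (c x : ℝ) : deriv (P1 c) x = -c + c * Real.exp x := by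
  have h : HasDerivAt (P1 c) (-c * 1 + c * Real.exp x) x := by
    unfold P1
    exact ((hasDerivAt_id x).const_mul (-c)).add ((Real.hasDerivAt_exp x).const_mul c)
  rw [h.deriv]
  ring

variable {c δ : ℝ}

/-- (9.1 c): upper bound of `W - u` at a point where `t ≥ κ δ` (`c = δ²`) -/
theorem WW_sub_le {Ω' : Set (V n)} (hΩ : IsOpen Ω) (hu : PSHd Ω u) (hΩ' : IsOpen Ω')
    (hu2 : ContDiffOn ℝ 2 u Ω') (hδ : 0 < δ) {z : V n} (hz : z ∈ shr Ω (2 * δ))
    (hz' : z ∈ shr Ω' δ) {D ε : ℝ} (hD : ∀ y ∈ Metric.closedBall z δ, |DA 1 u y - D| ≤ ε)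
    {x ℓ : ℝ} (hx : IsMn u (P1 (δ ^ 2)) δ z x) (hℓ : -x ≤ ℓ) :
    WW u (P1 (δ ^ 2)) δ z - u z ≤ δ ^ 2 * (3 / 2 + 2 * aa n * ε + ℓ) := by
  have hc : 0 < δ ^ 2 := by positivity
  have hx0 : x ≤ 0 := hx.nonpos hΩ hu (Or.inl rfl) hc hδ hz
  have he : Real.exp x ≤ 1 := Real.exp_le_one_iff.mpr hx0
  have he0 : 0 < Real.exp x := Real.exp_pos x
  have htle : δ * Real.exp x ≤ δ := mul_le_of_le_one_right hδ.le he
  have hD' : ∀ y ∈ Metric.closedBall z (δ * Real.exp x), |DA 1 u y - D| ≤ ε := fun y hy =>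
    hD y (Metric.closedBall_subset_closedBall htle hy)
  have hε : 0 ≤ ε := (abs_nonneg _).trans (hD z (Metric.mem_closedBall_self hδ.le))
  have h1 := (Phi_sub_bounds hΩ' hu2 (by positivity) (shr_mono htle hz') hD').2
  have h2 := deriv_Phi_exp_ge hΩ' hu2 hδ (shr_mono htle hz') hD'
  have h3 := hx.deriv_eq hΩ hu.int (Or.inl rfl) hδ hz
  rw [deriv_P1] at h3
  have ha := aa_pos (n := n)
  have ht2 : (δ * Real.exp x) ^ 2 ≤ δ ^ 2 := pow_le_pow_left₀ (by positivity) htle 2
  rw [hx.WW_eq, GG, P1]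
  have h4 : aa n * ε * (δ * Real.exp x) ^ 2 ≤ aa n * ε * δ ^ 2 :=
    mul_le_mul_of_nonneg_left ht2 (by positivity)
  have h5 : δ ^ 2 * Real.exp x ≤ δ ^ 2 := mul_le_of_le_one_right hc.le he
  have h6 : δ ^ 2 * (-x) ≤ δ ^ 2 * ℓ := mul_le_mul_of_nonneg_left hℓ hc.le
  have h7 : 0 < δ ^ 2 * Real.exp x := by positivity
  nlinarith

/-- (9.1 d): lower bound of `W - u` in terms of `Δu(z)` (`c = δ²`) -/
theorem le_WW_sub {Ω' : Set (V n)} (hΩ : IsOpen Ω) (hu : PSHd Ω u) (hΩ' : IsOpen Ω')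
    (hu2 : ContDiffOn ℝ 2 u Ω') (hδ : 0 < δ) {z : V n} (hz : z ∈ shr Ω (2 * δ))
    (hz' : z ∈ shr Ω' δ) {D ε : ℝ} (hD : ∀ y ∈ Metric.closedBall z δ, |DA 1 u y - D| ≤ ε)
    {x : ℝ} (hx : IsMn u (P1 (δ ^ 2)) δ z x) (hDε : ε < D) :
    δ ^ 2 * ((1 + Real.log (2 * (aa n * (D - ε)))) / 2) ≤ WW u (P1 (δ ^ 2)) δ z - u z := by
  have hc : 0 < δ ^ 2 := by positivity
  have hx0 : x ≤ 0 := hx.nonpos hΩ hu (Or.inl rfl) hc hδ hz
  have he : Real.exp x ≤ 1 := Real.exp_le_one_iff.mpr hx0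
  have he0 : 0 < Real.exp x := Real.exp_pos x
  have htle : δ * Real.exp x ≤ δ := mul_le_of_le_one_right hδ.le he
  have hD' : ∀ y ∈ Metric.closedBall z (δ * Real.exp x), |DA 1 u y - D| ≤ ε := fun y hy =>
    hD y (Metric.closedBall_subset_closedBall htle hy)
  have h1 := (Phi_sub_bounds hΩ' hu2 (by positivity) (shr_mono htle hz') hD').1
  have ha := aa_pos (n := n)
  have h2 := exp_sub_ge (α := aa n * (D - ε)) (mul_pos ha (by linarith)) x
  have h3 := mul_le_mul_of_nonneg_left h2 hc.le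
  have h4 : Real.exp (2 * x) = Real.exp x ^ 2 := by rw [← Real.exp_nat_mul]; norm_num
  rw [h4] at h3
  rw [hx.WW_eq, GG, P1]
  have h5 : 0 < δ ^ 2 * Real.exp x := by positivity
  nlinarith

end Pool.Agent.Helper76.AM
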