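import Pool.Agent.Helper76.AM.UL1
import Pool.Agent.Helper29.AM.Lev

/-!
# Project AM, section 9: second derivative test at a maximum of `u_δ - φ_τ` (9.1 b)

At a local maximum of `(1-b)(W - g - M'δ²|z|²) + b q - φ`, with `u = g + φ` and `L_{g+q} ≥ ε₁`:
`H_u ≥ (1-b) H_W + b₁`. With the estimate for `log det H_W` this bounds `tr H_W` and the minimiser.
-/

set_option autoImplicit false

namespace Pool.Agent.Helper76.AM

open MeasureTheory Set Filter Topology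
open Pool.Agent.Helper29.AM
open scoped ComplexOrder

variable {n : ℕ}

theorem lf_sub_mix (K H : Mat n) (b b₁ : ℝ) (v : V n) :
    lf (K - mix b b₁ H) v = lf K v - ((1 - b) * lf H v + b₁ * ‖v‖ ^ 2) := by
  have h1 : K - mix b b₁ H = K + (((-(1 - b) : ℝ) : ℂ) • H + ((-b₁ : ℝ) : ℂ) • (1 : Mat n)) := by
    rw [mix]
    push_cast
    module
  rw [h1, lf_add, lf_add, lf_smul, lf_smul, lf_one]
  ring

theorem mix_isHermitian {H : Mat n} (hH : H.IsHermitian) (b b₁ : ℝ) :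
    (mix b b₁ H).IsHermitian := by
  unfold mix
  refine Matrix.IsHermitian.add ?_ ?_
  · rw [Matrix.IsHermitian, Matrix.conjTranspose_smul, hH.eq]
    simp
  · rw [Matrix.IsHermitian, Matrix.conjTranspose_smul, Matrix.conjTranspose_one]
    simp

/-- the second derivative test of (9.1 b) -/
theorem psd_of_localMax {W g q φ u : V n → ℝ} {z₀ : V n} (hW : ContDiffAt ℝ 2 W z₀)
    (hg : ContDiffAt ℝ 2 g z₀) (hq : ContDiffAt ℝ 2 q z₀) (hφ : ContDiffAt ℝ 2 φ z₀)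
    (hu : u =ᶠ[𝓝 z₀] fun z => g z + φ z) {b b₁ m ε₁ : ℝ} (hb : 0 ≤ b)
    (hm : 0 ≤ m) (hb₁ : b₁ ≤ b * ε₁ - m)
    (hε : ∀ v, ε₁ * ‖v‖ ^ 2 ≤ lev (fun z => g z + q z) z₀ v)
    (hmax : IsLocalMax (fun z => (1 - b) * (W z - g z - m * ‖z‖ ^ 2) + b * q z - φ z) z₀) :
    (hess u z₀ - mix b b₁ (hess W z₀)).PosSemidef := by
  have hu2 : ContDiffAt ℝ 2 u z₀ := (hg.add hφ).congr_of_eventuallyEq hu
  have hherm : (hess u z₀ - mix b b₁ (hess W z₀)).IsHermitian :=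
    (hess_isHermitian hu2).sub (mix_isHermitian (hess_isHermitian hW) b b₁)
  rw [posSemidef_iff_lf hherm]
  intro v
  rw [lf_sub_mix, ← lev_eq_lf hu2, ← lev_eq_lf hW]
  have hns : ContDiffAt ℝ 2 (fun z : V n => ‖z‖ ^ 2) z₀ := (contDiff_norm_sq ℝ).contDiffAt
  -- the auxiliary function
  have h1 : ContDiffAt ℝ 2 (fun z => W z + (-1) * g z) z₀ := hW.add (contDiffAt_const.mul hg)
  have h2 : ContDiffAt ℝ 2 (fun z => (-m) * ‖z‖ ^ 2) z₀ := contDiffAt_const.mul hns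
  have h3 : ContDiffAt ℝ 2 (fun z => (W z + (-1) * g z) + (-m) * ‖z‖ ^ 2) z₀ := h1.add h2
  have h4 : ContDiffAt ℝ 2 (fun z => (1 - b) * ((W z + (-1) * g z) + (-m) * ‖z‖ ^ 2)) z₀ :=
    contDiffAt_const.mul h3
  have h5 : ContDiffAt ℝ 2 (fun z => b * q z) z₀ := contDiffAt_const.mul hq
  have h6 : ContDiffAt ℝ 2 (fun z => (-1) * φ z) z₀ := contDiffAt_const.mul hφ
  have h7 : ContDiffAt ℝ 2 (fun z => (1 - b) * ((W z + (-1) * g z) + (-m) * ‖z‖ ^ 2) + b * q z) z₀ :=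
    h4.add h5
  have h8 : ContDiffAt ℝ 2 (fun z => ((1 - b) * ((W z + (-1) * g z) + (-m) * ‖z‖ ^ 2) + b * q z) +
      (-1) * φ z) z₀ := h7.add h6
  have hmax' : IsLocalMax (fun z => ((1 - b) * ((W z + (-1) * g z) + (-m) * ‖z‖ ^ 2) + b * q z) +
      (-1) * φ z) z₀ := by
    refine hmax.congr (Eventually.of_forall fun z => ?_) |>.mono fun z hz => hz
    ring
  have h9 := lev_nonpos_of_isLocalMax h8 hmax' v
  have hns' : lev (fun z : V n => ‖z‖ ^ 2) z₀ v = ‖v‖ ^ 2 := by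
    simpa using lev_normSq (0 : V n) v (z := z₀)
  rw [lev_add h7 h6, lev_add h4 h5, lev_const_mul _ h3, lev_add h1 h2,
    lev_add hW (contDiffAt_const.mul hg), lev_const_mul _ hg, lev_const_mul _ hns,
    lev_const_mul _ hq, lev_const_mul _ hφ, hns'] at h9
  have h10 := hε v
  rw [lev_add hg hq] at h10
  rw [lev_congr hu, lev_add hg hφ]
  have hv : 0 ≤ ‖v‖ ^ 2 := by positivity
  have h11 : b * (ε₁ * ‖v‖ ^ 2) ≤ b * (lev g z₀ v + lev q z₀ v) :=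
    mul_le_mul_of_nonneg_left h10 hb
  have h12 : b₁ * ‖v‖ ^ 2 ≤ (b * ε₁ - m) * ‖v‖ ^ 2 := mul_le_mul_of_nonneg_right hb₁ hv
  have h13 : 0 ≤ b * (m * ‖v‖ ^ 2) := by positivity
  nlinarith

/-- conclusion of (9.1 b): bound for `tr H'` -/
theorem trace_bound {H K : Mat n} (hH : H.PosDef) {B₀ ε₁ C m δ : ℝ}
    (hB : 0 < B₀) (hε : 0 < ε₁) (hC : 0 ≤ C) (hδ : 0 < δ) (hb2 : B₀ * δ ^ 2 ≤ 1 / 2)
    (hs : (C + 2 * n * B₀) * δ ^ 2 ≤ 1)
    (hK : (K - mix (B₀ * δ ^ 2) (B₀ * ε₁ / 2 * δ ^ 2) H).PosSemidef)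
    (hlog : Real.log K.det.re ≤ Real.log H.det.re + C * δ ^ 2) (hm : K.det.re ≤ m) :
    (Matrix.trace H).re ≤
      n * (2 ^ n * m * (4 * (C + 2 * n * B₀) / (B₀ * ε₁)) ^ (n - 1)) := by
  have hδ2 : 0 < δ ^ 2 := by positivity
  obtain ⟨h1, h2⟩ := matrix_bound hH (b := B₀ * δ ^ 2) (b₁ := B₀ * ε₁ / 2 * δ ^ 2)
    (κ := C * δ ^ 2) (m := m) (by positivity) hb2 (by positivity) (by positivity)
    (by linarith [hs, (by ring : (C + 2 * n * B₀) * δ ^ 2 = C * δ ^ 2 + 2 * n * (B₀ * δ ^ 2))])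
    hK hlog hm
  refine trace_le_of_trace_inv hH ?_ h2
  rw [le_div_iff₀ (by positivity)]
  have h3 : B₀ * ε₁ / 2 * δ ^ 2 * (Matrix.trace H⁻¹).re ≤ 2 * (C + 2 * n * B₀) * δ ^ 2 := by
    calc _ ≤ _ := h1
      _ = _ := by ring
  have h4 : B₀ * ε₁ / 2 * (Matrix.trace H⁻¹).re ≤ 2 * (C + 2 * n * B₀) := by
    refine le_of_mul_le_mul_right ?_ hδ2
    calc _ = B₀ * ε₁ / 2 * δ ^ 2 * (Matrix.trace H⁻¹).re := by ring
      _ ≤ _ := h3
  linarith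

end Pool.Agent.Helper76.AM
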