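import Pool.Agent.Helper76.AM.UL2
import Pool.Agent.Helper76.AM.UL3

/-!
# Project AM, section 9: the lower bound for the logarithmic mean (9.1 b)

`u = g + φ` smooth psh on `U`, `log det H_u = τ φ + lf`: the mean of `τ φ + lf` over the ball of
radius `t` is at least `τ φ(z) + lf(z) - (C_g + C_l) t²`.
-/

set_option autoImplicit false

namespace Pool.Agent.Helper76.AM

open MeasureTheory Set Filter Topology
open Pool.Agent.Helper29.AM
open scoped ComplexOrder

variable {n : ℕ}

theorem Phi_const_mul (c : ℝ) (u : V n → ℝ) (z : V n) (t : ℝ) :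
    Phi (fun y => c * u y) z t = c * Phi u z t := by
  unfold Phi M
  rw [← integral_const_mul]
  refine integral_congr_ae (Eventually.of_forall fun η => ?_)
  ring

theorem log_mean_ge (hn : 0 < n) {U : Set (V n)} (hU : IsOpen U) {u g φ lF : V n → ℝ}
    (hu : SPsh U u) (hg : ContinuousOn g U) (hl : ContinuousOn lF U)
    (hφ : ∀ y ∈ U, φ y = u y - g y) {z : V n} {t : ℝ} (ht : 0 < t) (hz : z ∈ shr U t)
    {τ Cg Cl : ℝ} (hτ : 0 ≤ τ) (hτ1 : τ ≤ 1) (hCg : |Phi g z t - g z| ≤ Cg * t ^ 2)
    (hCl : |Phi lF z t - lF z| ≤ Cl * t ^ 2) (hCg0 : 0 ≤ Cg) :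
    τ * φ z + lF z - (Cg + Cl) * t ^ 2 ≤
      n * Phi (fun y => (τ * φ y + lF y) / n) z t := by
  have hn' : (n : ℝ) ≠ 0 := by exact_mod_cast hn.ne'
  have hzU : z ∈ U := hz (Metric.mem_closedBall_self ht.le)
  have hmeas : MeasurableSet U := hU.measurableSet
  have hui : LocallyIntegrableOn u U volume :=
    (hu.smooth.continuousOn).locallyIntegrableOn hmeas
  have hgi : LocallyIntegrableOn g U volume := hg.locallyIntegrableOn hmeas
  have hli : LocallyIntegrableOn lF U volume := hl.locallyIntegrableOn hmeas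
  have h1 : Phi (fun y => (τ * φ y + lF y) / n) z t =
      Phi (fun y => (n : ℝ)⁻¹ * ((τ * u y + (-τ) * g y) + lF y)) z t := by
    refine M_congr fun η hη => ?_
    have hy : z + (sc t : Lin n) η ∈ U := (mem_shr_iff ht.le).mp hz η hη.le
    rw [hφ _ hy]
    field_simp
    ring
  have hτu : LocallyIntegrableOn (fun y => τ * u y) U volume :=
    (continuousOn_const.mul hu.smooth.continuousOn).locallyIntegrableOn hmeas
  have hτg : LocallyIntegrableOn (fun y => (-τ) * g y) U volume :=
    (continuousOn_const.mul hg).locallyIntegrableOn hmeas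
  have hsum : LocallyIntegrableOn (fun y => τ * u y + (-τ) * g y) U volume :=
    ((continuousOn_const.mul hu.smooth.continuousOn).add
      (continuousOn_const.mul hg)).locallyIntegrableOn hmeas
  rw [h1, Phi_const_mul, Phi_add hU hsum hli ht hz, Phi_add hU hτu hτg ht hz, Phi_const_mul,
    Phi_const_mul, ← mul_assoc, mul_inv_cancel₀ hn', one_mul, hφ z hzU]
  have h2 := hu.le_Phi hU ht.le hz
  have h3 := (abs_le.mp hCg).2
  have h4 := (abs_le.mp hCl).1
  have h5 := mul_le_mul_of_nonneg_left h2 hτ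
  have h6 := mul_le_mul_of_nonneg_left h3 hτ
  have h7 : τ * (Cg * t ^ 2) ≤ Cg * t ^ 2 := mul_le_of_le_one_left (by positivity) hτ1
  nlinarith

end Pool.Agent.Helper76.AM
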