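import Pool.Agent.Helper29.AM.Glob
import Pool.Agent.Helper29.AM.Mean2

/-!
# Project AM, section 9: smooth functions on `D` in the charts, uniformity on compact sets
-/

set_option autoImplicit false

namespace Pool.Agent.Helper76.AM

open MeasureTheory Set Filter Topology
open Pool.Agent.Helper29.AM
open scoped ComplexOrder

variable {X : Type} [TopologicalSpace X] [MeasurableSpace X] {n N : ℕ} (A : Atl X n N)

/-- the points of `B(3)` (chart `i`) which belong to `D` -/
def GD (D : Set X) (i : Fin N) : Set (V n) :=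
  Metric.ball 0 3 ∩ ((A.e i).target ∩ (A.e i).symm ⁻¹' D)

theorem isOpen_GD {D : Set X} (hD : IsOpen D) (i : Fin N) : IsOpen (GD A D i) :=
  Metric.isOpen_ball.inter ((A.e i).isOpen_inter_preimage_symm hD)

theorem mem_target {i : Fin N} {z : V n} (hz : ‖z‖ ≤ 4) : z ∈ (A.e i).target :=
  A.ball i (by simpa using hz)

theorem contDiffOn_pot {D : Set X} {φ : X → ℝ} (hφ : A.SmoothOn D φ) (i : Fin N) :
    ContDiffOn ℝ (⊤ : ℕ∞) (A.pot i φ) (GD A D i) := by
  have h1 : ContDiffOn ℝ (⊤ : ℕ∞) (A.g i) (GD A D i) := (A.g_smooth i).mono fun z hz => hz.2.1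
  have h2 : ContDiffOn ℝ (⊤ : ℕ∞) (A.lc i φ) (GD A D i) := (hφ i).mono fun z hz => hz.2
  exact h1.add h2

theorem GD_subset (D : Set X) (i : Fin N) : GD A D i ⊆ Metric.ball 0 3 := fun _ hz => hz.1

theorem isCompact_chart [T2Space X] {K : Set X} (hK : IsCompact K) (i : Fin N) {r : ℝ}
    (hr : r ≤ 4) : IsCompact (Metric.closedBall (0 : V n) r ∩ (A.e i).symm ⁻¹' K) := by
  have h1 : ContinuousOn (A.e i).symm (Metric.closedBall (0 : V n) r) :=
    (A.e i).continuousOn_symm.mono fun z hz => mem_target A ((by simpa using hz : ‖z‖ ≤ r).trans hr)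
  have h2 : IsClosed (Metric.closedBall (0 : V n) r ∩ (A.e i).symm ⁻¹' K) :=
    h1.preimage_isClosed_of_isClosed Metric.isClosed_closedBall hK.isClosed
  exact (isCompact_closedBall (0 : V n) r).of_isClosed_subset h2 inter_subset_left

/-- (c): uniform radius and modulus of continuity for the Laplacian on compact subsets of `D` -/
theorem exists_radius [T2Space X] {D : Set X} (hD : IsOpen D) {φ : X → ℝ} (hφ : A.SmoothOn D φ)
    {K : Set X} (hK : IsCompact K) (hKD : K ⊆ D) (i : Fin N) :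
    ∃ r : ℝ, 0 < r ∧ ∀ z : V n, ‖z‖ ≤ 2 → (A.e i).symm z ∈ K →
      Metric.closedBall z r ⊆ GD A D i ∧
      ∀ y ∈ Metric.closedBall z r, |DA 1 (A.pot i φ) y - DA 1 (A.pot i φ) z| ≤ 1 := by
  have hS : IsCompact (Metric.closedBall (0 : V n) 2 ∩ (A.e i).symm ⁻¹' K) :=
    isCompact_chart A hK i (by norm_num)
  have hSG : Metric.closedBall (0 : V n) 2 ∩ (A.e i).symm ⁻¹' K ⊆ GD A D i := by
    intro z hz
    have h1 : ‖z‖ ≤ 2 := by simpa using hz.1
    exact ⟨by simpa using lt_of_le_of_lt h1 (by norm_num), mem_target A (h1.trans (by norm_num)),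
      hKD hz.2⟩
  obtain ⟨r₁, hr₁, hth⟩ := hS.exists_cthickening_subset_open (isOpen_GD A hD i) hSG
  have hcomp : IsCompact (Metric.cthickening r₁ (Metric.closedBall (0 : V n) 2 ∩
      (A.e i).symm ⁻¹' K)) := hS.cthickening
  have hcont : ContinuousOn (DA 1 (A.pot i φ)) (GD A D i) := by
    unfold DA
    exact continuousOn_finsetSum _ fun l _ =>
      continuousOn_lev (isOpen_GD A hD i) ((contDiffOn_pot A hφ i).of_le (WithTop.coe_le_coe.mpr (le_top (a := (2 : ℕ∞))))) _
  have huc := hcomp.uniformContinuousOn_of_continuous (hcont.mono hth)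
  rw [Metric.uniformContinuousOn_iff] at huc
  obtain ⟨r₂, hr₂, h2⟩ := huc 1 one_pos
  refine ⟨min r₁ (r₂ / 2), by positivity, fun z hz hzK => ?_⟩
  have hzS : z ∈ Metric.closedBall (0 : V n) 2 ∩ (A.e i).symm ⁻¹' K := ⟨by simpa using hz, hzK⟩
  have hball : Metric.closedBall z (min r₁ (r₂ / 2)) ⊆
      Metric.cthickening r₁ (Metric.closedBall (0 : V n) 2 ∩ (A.e i).symm ⁻¹' K) := by
    refine (Metric.closedBall_subset_closedBall (min_le_left _ _)).trans ?_
    exact Metric.closedBall_subset_cthickening hzS _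
  refine ⟨hball.trans hth, fun y hy => ?_⟩
  have h3 : dist y z < r₂ := by
    have := Metric.mem_closedBall.mp hy
    have h4 := min_le_right r₁ (r₂ / 2)
    linarith
  have h5 := h2 y (hball hy) z (hball (Metric.mem_closedBall_self (by positivity))) h3
  rw [Real.dist_eq] at h5
  exact h5.le

end Pool.Agent.Helper76.AM
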