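import Pool.Agent.Helper76.AM.UL4
import Pool.Agent.Helper29.AM.KL3

/-!
# Project AM, section 9: the local estimate at a maximum point (9.1 b)

`u = g + φ` smooth psh near `closedBall z (2δ)`, `det hess u = e^{τφ} f`,
`hess u(z) ≥ (1-b) hess W(z) + b₁`. Then the minimiser satisfies `-x ≤ ℓ` with `ℓ` depending only on the
bounds for `g`, `log f`, `e^{τφ}f(z)`, `B₀`, `ε`.
-/

set_option autoImplicit false

namespace Pool.Agent.Helper76.AM

open MeasureTheory Set Filter Topology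
open Pool.Agent.Helper29.AM
open scoped ComplexOrder

variable {n : ℕ}

theorem two_le_top : (2 : WithTop ℕ∞) ≤ ((⊤ : ℕ∞) : WithTop ℕ∞) :=
  WithTop.coe_le_coe.mpr (le_top (a := (2 : ℕ∞)))

theorem lev_eq_lf_fun {U : Set (V n)} (hU : IsOpen U) {u : V n → ℝ} (hu : ContDiffOn ℝ 2 u U)
    {z : V n} (hz : z ∈ U) : lev u z = lf (hess u z) := by
  funext v
  exact lev_eq_lf (hu.contDiffAt (hU.mem_nhds hz)) v

/-- smooth members of `PSHd` are psh in the classical sense -/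
theorem spsh_of_pshd (hn : 0 < n) {U : Set (V n)} (hU : IsOpen U) {u : V n → ℝ}
    (h : PSHd U u) (hu : ContDiffOn ℝ (⊤ : ℕ∞) u U) : SPsh U u := by
  refine ⟨hu, fun z hz v => ?_⟩
  have hu2 : ContDiffOn ℝ 2 u U := hu.of_le two_le_top
  have h1 := GS.GP_of_smooth hU hu2 continuousOn_const h z hz
  rw [lev_eq_lf_fun hU hu2 hz] at h1 ⊢
  exact h1.nonneg hn le_rfl v

theorem hess_posSemidef {U : Set (V n)} (hU : IsOpen U) {u : V n → ℝ}
    (h : SPsh U u) {z : V n} (hz : z ∈ U) : (hess u z).PosSemidef := by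
  have hu2 : ContDiffOn ℝ 2 u U := h.smooth.of_le two_le_top
  have hat := hu2.contDiffAt (hU.mem_nhds hz)
  rw [posSemidef_iff_lf (hess_isHermitian hat)]
  intro v
  rw [← lev_eq_lf hat]
  exact h.psh z hz v

/-- the constant of (9.1 b) -/
noncomputable def ell (n : ℕ) (C m B₀ ε : ℝ) : ℝ :=
  Real.log (2 + 64 * (n * (2 ^ n * m * (4 * (C + 2 * n * B₀) / (B₀ * ε)) ^ (n - 1))))

/-- (9.1 b), local form -/
theorem neg_le_ell (hn : 0 < n) {U : Set (V n)} (hU : IsOpen U) {u g φ f : V n → ℝ}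
    (hu : SPsh U u) (hg : ContinuousOn g U) (hf : ContinuousOn f U) (hf0 : ∀ y ∈ U, 0 < f y)
    (hφ : ∀ y ∈ U, φ y = u y - g y) {τ : ℝ} (hτ : 0 ≤ τ) (hτ1 : τ ≤ 1)
    (hdet : ∀ y ∈ U, (hess u y).det.re = Real.exp (τ * φ y) * f y)
    {z : V n} {δ : ℝ} (hδ : 0 < δ) (hz : z ∈ shr U (2 * δ)) {x : ℝ}
    (hx : IsMn u (P1 (δ ^ 2)) δ z x) {Cg Cl : ℝ} (hCg0 : 0 ≤ Cg) (hCl0 : 0 ≤ Cl)
    (hCg : ∀ t, 0 ≤ t → t ≤ δ → |Phi g z t - g z| ≤ Cg * t ^ 2)
    (hCl : ∀ t, 0 ≤ t → t ≤ δ →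
      |Phi (fun y => Real.log (f y)) z t - Real.log (f z)| ≤ Cl * t ^ 2)
    {m B₀ ε : ℝ} (hB : 0 < B₀) (hε : 0 < ε) (hm : Real.exp (τ * φ z) * f z ≤ m)
    (hb2 : B₀ * δ ^ 2 ≤ 1 / 2) (hs : (Cg + Cl + 2 * n * B₀) * δ ^ 2 ≤ 1)
    (hpsd : (hess u z - mix (B₀ * δ ^ 2) (B₀ * ε / 2 * δ ^ 2)
      (hess (WW u (P1 (δ ^ 2)) δ) z)).PosSemidef) :
    -x ≤ ell n (Cg + Cl) m B₀ ε := by
  have hc : 0 < δ ^ 2 := by positivity
  have hzU : z ∈ U := hz (Metric.mem_closedBall_self (by positivity))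
  have hpshd : PSHd U u := hu.pshd hU
  have hx0 : x ≤ 0 := hx.nonpos hU hpshd (Or.inl rfl) hc hδ hz
  have he : Real.exp x ≤ 1 := Real.exp_le_one_iff.mpr hx0
  have htle : δ * Real.exp x ≤ δ := mul_le_of_le_one_right hδ.le he
  have ht0 : 0 < δ * Real.exp x := by positivity
  have hn' : (0 : ℝ) < n := by exact_mod_cast hn
  have hu2 : ContDiffOn ℝ 2 u U := hu.smooth.of_le two_le_top
  -- the function F
  set F : V n → ℝ := fun y => Real.exp ((τ * φ y + Real.log (f y)) / n) with hFdef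
  have hφc : ContinuousOn φ U := (hu.smooth.continuousOn.sub hg).congr fun y hy => hφ y hy
  have hlog : ContinuousOn (fun y => Real.log (f y)) U := hf.log fun y hy => (hf0 y hy).ne'
  have hFc : ContinuousOn F U :=
    (((continuousOn_const.mul hφc).add hlog).div_const _).rexp
  have hFn : ∀ y ∈ U, F y ^ n = (hess u y).det.re := by
    intro y hy
    rw [hdet y hy, hFdef, ← Real.exp_nat_mul]
    have h1 : (n : ℝ) * ((τ * φ y + Real.log (f y)) / n) = τ * φ y + Real.log (f y) := by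
      field_simp
    rw [h1, Real.exp_add, Real.exp_log (hf0 y hy)]
  have hGP : ∀ y ∈ U, GP (lev u y) (F y) := by
    intro y hy
    rw [lev_eq_lf_fun hU hu2 hy]
    exact GP_of_det hn (hess_posSemidef hU hu hy) (Real.exp_pos _).le (hFn y hy).le
  -- the transform
  have hsm : ContDiffOn ℝ (⊤ : ℕ∞) (WW u (P1 (δ ^ 2)) δ)
      {z | z ∈ shr U (2 * δ) ∧ ∃ x, IsMn u (P1 (δ ^ 2)) δ z x} :=
    contDiffOn_WW hU hpshd (Or.inl rfl) hc hδ
  have hopen : IsOpen {z | z ∈ shr U (2 * δ) ∧ ∃ x, IsMn u (P1 (δ ^ 2)) δ z x} :=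
    isOpen_att hU hpshd (Or.inl rfl) hc hδ
  have hzmem : z ∈ {z | z ∈ shr U (2 * δ) ∧ ∃ x, IsMn u (P1 (δ ^ 2)) δ z x} := ⟨hz, x, hx⟩
  have hW2 : ContDiffAt ℝ 2 (WW u (P1 (δ ^ 2)) δ) z :=
    (hsm.of_le two_le_top).contDiffAt (hopen.mem_nhds hzmem)
  have h2 := GP_WW hn hU hu (Or.inl rfl) hc hδ hz hx hFc (fun y _ => Real.exp_pos _) hGP
  have h3 : lev (WW u (P1 (δ ^ 2)) δ) z = lf (hess (WW u (P1 (δ ^ 2)) δ) z) := by
    funext v; exact lev_eq_lf hW2 v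
  rw [h3] at h2
  obtain ⟨h4, h5⟩ := psd_of_GP hn (hess_isHermitian hW2) (Real.exp_pos _).le h2
  set H := hess (WW u (P1 (δ ^ 2)) δ) z with hHdef
  have hdpos : 0 < H.det.re := lt_of_lt_of_le (pow_pos (Real.exp_pos _) n) h5
  have hPD : H.PosDef := by
    refine h4.posDef_iff_det_ne_zero.mpr ?_
    intro h0
    rw [h0] at hdpos
    simp at hdpos
  have h6 : n * Phi (fun y => Real.log (F y)) z (δ * Real.exp x) ≤ Real.log H.det.re := by
    rw [Real.le_log_iff_exp_le hdpos, Real.exp_nat_mul]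
    exact h5
  have h7 : Phi (fun y => Real.log (F y)) z (δ * Real.exp x) =
      Phi (fun y => (τ * φ y + Real.log (f y)) / n) z (δ * Real.exp x) := by
    simp only [hFdef, Real.log_exp]
  have hz' : z ∈ shr U (δ * Real.exp x) :=
    shr_mono (htle.trans (by linarith)) hz
  have h8 := log_mean_ge hn hU hu hg hlog hφ ht0 hz' hτ hτ1 (hCg _ ht0.le htle)
    (hCl _ ht0.le htle) hCg0
  have h9 : (Cg + Cl) * (δ * Real.exp x) ^ 2 ≤ (Cg + Cl) * δ ^ 2 :=
    mul_le_mul_of_nonneg_left (pow_le_pow_left₀ ht0.le htle 2) (by positivity)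
  have h10 : Real.log (hess u z).det.re = τ * φ z + Real.log (f z) := by
    rw [hdet z hzU, Real.log_mul (Real.exp_pos _).ne' (hf0 z hzU).ne', Real.log_exp]
  have h11 : Real.log (hess u z).det.re ≤ Real.log H.det.re + (Cg + Cl) * δ ^ 2 := by
    rw [h10]
    rw [h7] at h6
    linarith
  have h12 := trace_bound (m := m) hPD hB hε (by positivity : 0 ≤ Cg + Cl) hδ hb2 hs hpsd h11
    ((hdet z hzU).trans_le hm)
  -- conclusion
  have htr0 : 0 ≤ (Matrix.trace H).re := by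
    rw [← sA_one, ← DA_eq_sA hW2]
    exact Finset.sum_nonneg fun l _ => by
      rw [lev_eq_lf hW2]
      exact (posSemidef_iff_lf h4.1).mp h4 _
  unfold ell
  rw [Real.le_log_iff_exp_le (by linarith)]
  by_cases hx2 : Real.exp x ≤ 1 / 2
  · have h13 := trace_WW_ge hn hU hu hδ hz hx hx2
    rw [DA_eq_sA hW2, sA_one] at h13
    linarith
  · have h14 : Real.exp (-x) < 2 := by
      rw [Real.exp_neg]
      have h15 := not_le.mp hx2
      rw [inv_lt_comm₀ (Real.exp_pos x) (by norm_num)]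
      linarith
    linarith

end Pool.Agent.Helper76.AM
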