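import Pool.Agent.Helper76.AM.UL5
import Pool.Agent.Helper76.AM.UL6

/-!
# Project AM, section 9: elementary global facts

Open sets have positive measure; inequalities a.e. between continuous functions hold everywhere on `D`;
existence of the minimiser at the points near which the function is smooth.
-/

set_option autoImplicit false

namespace Pool.Agent.Helper76.AM

open MeasureTheory Set Filter Topology
open Pool.Agent.Helper29.AM
open scoped ComplexOrder

variable {X : Type} [TopologicalSpace X] [MeasurableSpace X] {n N : ℕ} (A : Atl X n N)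

theorem cn_pos (n : ℕ) : 0 < cn n := by
  unfold cn
  positivity

theorem pos_of_isOpen [BorelSpace X] {O : Set X} (hO : IsOpen O) (hne : O.Nonempty) :
    0 < A.μ O := by
  obtain ⟨x, hx⟩ := hne
  obtain ⟨i, hi, -⟩ := A.cover x
  by_contra hcon
  have h0 : A.μ O = 0 := le_antisymm (not_lt.mp hcon) bot_le
  set T : Set (V n) := (A.e i).target ∩ (A.e i).symm ⁻¹' O with hT
  have hTo : IsOpen T := (A.e i).isOpen_inter_preimage_symm hO
  have hTne : T.Nonempty := ⟨A.e i x, (A.e i).map_source hi, by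
    simpa [(A.e i).left_inv hi] using hx⟩
  have hmeas : AEMeasurable (A.e i) (A.μ.restrict (A.e i).source) :=
    (A.e i).continuousOn.aemeasurable (A.e i).open_source.measurableSet
  have h1 : ((A.μ.restrict (A.e i).source).map (A.e i)) T = 0 := by
    rw [Measure.map_apply_of_aemeasurable hmeas hTo.measurableSet]
    have hle : (A.μ.restrict (A.e i).source) ((A.e i) ⁻¹' T) ≤ A.μ O := by
      rw [Measure.restrict_apply₀']
      · refine measure_mono ?_
        rintro y ⟨hy, hys⟩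
        have h2 : (A.e i).symm (A.e i y) ∈ O := hy.2
        rwa [(A.e i).left_inv hys] at h2
      · exact (A.e i).open_source.measurableSet.nullMeasurableSet
    exact le_antisymm (hle.trans h0.le) bot_le
  rw [A.μ_eq i, withDensity_apply _ hTo.measurableSet, Measure.restrict_restrict hTo.measurableSet,
    inter_eq_left.mpr (inter_subset_left : T ⊆ (A.e i).target)] at h1
  have h2 : volume T = 0 := by
    rw [lintegral_eq_zero_iff' ?_] at h1
    · have h3 : ∀ᵐ z ∂(volume.restrict T), False := by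
        filter_upwards [h1, ae_restrict_mem hTo.measurableSet] with z hz hzT
        have h4 : 0 < cn n * A.f i z := mul_pos (cn_pos n) (A.f_pos i z hzT.1)
        simp only [Pi.zero_apply, ENNReal.ofReal_eq_zero] at hz
        linarith
      have h5 : volume.restrict T = 0 := by
        simpa using h3
      rwa [Measure.restrict_eq_zero] at h5
    · refine ((ContinuousOn.aemeasurable ?_ hTo.measurableSet)).ennreal_ofReal
      exact continuousOn_const.mul ((A.f_smooth i).continuousOn.mono inter_subset_left)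
  exact (hTo.measure_pos volume hTne).ne' h2

theorem le_on_of_ae [BorelSpace X] {D : Set X} (hD : IsOpen D) {f h : X → ℝ}
    (hf : ContinuousOn f D) (hh : ContinuousOn h D)
    (hae : ∀ᵐ x ∂A.μ, x ∈ D → f x ≤ h x) : ∀ x ∈ D, f x ≤ h x := by
  intro x hx
  by_contra hcon
  have hO : IsOpen (D ∩ (fun y => h y - f y) ⁻¹' Iio 0) :=
    (hh.sub hf).isOpen_inter_preimage hD isOpen_Iio
  have hne : (D ∩ (fun y => h y - f y) ⁻¹' Iio 0).Nonempty :=
    ⟨x, hx, by simpa using not_le.mp hcon⟩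
  have h1 := pos_of_isOpen A hO hne
  have h2 : A.μ (D ∩ (fun y => h y - f y) ⁻¹' Iio 0) = 0 := by
    refine measure_mono_null ?_ (ae_iff.mp hae)
    rintro y ⟨hy, hy'⟩
    simp only [mem_preimage, mem_Iio] at hy'
    simp only [Set.mem_ofPred_eq, Classical.not_imp, not_le]
    exact ⟨hy, by linarith⟩
  exact h1.ne' h2

variable {Ω U : Set (V n)} {u : V n → ℝ}

/-- sub-mean value property at the points near which `u` is smooth -/
theorem le_Phi_of_smooth (hn : 0 < n) (hΩ : IsOpen Ω) (hu : PSHd Ω u) (hU : IsOpen U)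
    (hUΩ : U ⊆ Ω) (hs : ContDiffOn ℝ (⊤ : ℕ∞) u U) {z : V n} (hzU : z ∈ U) {t : ℝ} (ht : 0 < t)
    (hz : z ∈ shr Ω t) : u z ≤ Phi u z t := by
  obtain ⟨r, hr, hrU⟩ := Metric.isOpen_iff.mp hU z hzU
  have hs0 : 0 < min (r / 2) t := by positivity
  have h1 : z ∈ shr U (min (r / 2) t) := by
    refine (Metric.closedBall_subset_ball ?_).trans hrU
    exact lt_of_le_of_lt (min_le_left _ _) (by linarith)
  have h2 := (spsh_of_pshd hn hU (hu.mono_set hU hUΩ) hs).le_Phi hU hs0.le h1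
  exact h2.trans (Phi_mono_radius hΩ hu hs0 (min_le_right _ _) hz)

/-- the minimiser exists, and `u ≤ W` -/
theorem exists_IsMn_of_smooth (hn : 0 < n) (hΩ : IsOpen Ω) (hu : PSHd Ω u) (hU : IsOpen U)
    (hUΩ : U ⊆ Ω) (hs : ContDiffOn ℝ (⊤ : ℕ∞) u U) {z : V n} (hzU : z ∈ U) {c δ : ℝ}
    (hc : 0 < c) (hδ : 0 < δ) (hz : z ∈ shr Ω (2 * δ)) :
    ∃ x, IsMn u (P1 c) δ z x ∧ u z ≤ WW u (P1 c) δ z := by
  have hΦ : ∀ t, 0 < t → t ≤ δ → u z ≤ Phi u z t := fun t ht htδ =>
    le_Phi_of_smooth hn hΩ hu hU hUΩ hs hzU ht (shr_mono (htδ.trans (by linarith)) hz)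
  obtain ⟨x, hx⟩ := exists_IsMn_of_bdd hΩ hu (Or.inl rfl) hc hδ hz hΦ
  refine ⟨x, hx, ?_⟩
  have hx0 : x ≤ 0 := hx.nonpos hΩ hu (Or.inl rfl) hc hδ hz
  have htle : δ * Real.exp x ≤ δ :=
    mul_le_of_le_one_right hδ.le (Real.exp_le_one_iff.mpr hx0)
  exact (hΦ _ (by positivity) htle).trans (le_WW_P1 hΩ hu hc hδ hz hx).2

/-- the transform is smooth at such points -/
theorem contDiffAt_WW_of_smooth (hn : 0 < n) (hΩ : IsOpen Ω) (hu : PSHd Ω u) (hU : IsOpen U)
    (hUΩ : U ⊆ Ω) (hs : ContDiffOn ℝ (⊤ : ℕ∞) u U) {z : V n} (hzU : z ∈ U) {c δ : ℝ}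
    (hc : 0 < c) (hδ : 0 < δ) (hz : z ∈ shr Ω (2 * δ)) :
    ContDiffAt ℝ (⊤ : ℕ∞) (WW u (P1 c) δ) z := by
  obtain ⟨x, hx, -⟩ := exists_IsMn_of_smooth hn hΩ hu hU hUΩ hs hzU hc hδ hz
  have hmem : z ∈ {z | z ∈ shr Ω (2 * δ) ∧ ∃ x, IsMn u (P1 c) δ z x} := ⟨hz, x, hx⟩
  exact (contDiffOn_WW hΩ hu (Or.inl rfl) hc hδ).contDiffAt
    ((isOpen_att hΩ hu (Or.inl rfl) hc hδ).mem_nhds hmem)

end Pool.Agent.Helper76.AM
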