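import Pool.Agent.Helper76.AM.UL7
import Pool.Agent.Helper29.AM.PE2

/-!
# Project AM, section 9: the glued transform on `D`

Points of `D`: the infima are attained, the local transforms are smooth near them, the glued transform is
continuous on `D`. Bound for the means of `log f_i`.
-/

set_option autoImplicit false

namespace Pool.Agent.Helper76.AM

open MeasureTheory Set Filter Topology
open Pool.Agent.Helper29.AM
open scoped ComplexOrder

variable {X : Type} [TopologicalSpace X] [MeasurableSpace X] {n N : ℕ} (A : Atl X n N)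

theorem mem_shr_B3 {z : V n} {δ : ℝ} (hδ : δ ≤ 1 / 8) (hz : ‖z‖ ≤ 2) :
    z ∈ shr (Atl.B3 n) (2 * δ) := by
  intro y hy
  have h1 := Metric.mem_closedBall.mp hy
  have h2 : ‖y‖ ≤ ‖z‖ + dist y z := by
    rw [dist_eq_norm]
    calc ‖y‖ = ‖z + (y - z)‖ := by congr 1; abel
      _ ≤ _ := norm_add_le _ _
  simp only [Metric.mem_ball, dist_zero_right]
  linarith

variable {D : Set X} {φ : X → ℝ}

theorem chart_mem_GD {x : X} (hxD : x ∈ D) {i : Fin N} (hi : x ∈ A.Ci i 2) :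
    A.e i x ∈ GD A D i := by
  refine ⟨?_, (A.e i).map_source hi.1, ?_⟩
  · simp only [Metric.mem_ball, dist_zero_right]
    linarith [hi.2]
  · simp only [mem_preimage]
    rwa [(A.e i).left_inv hi.1]

theorem att_of_mem (hn : 0 < n) (hD : IsOpen D) (hφ : A.SmoothOn D φ) (hp : A.PSX φ) {x : X}
    (hxD : x ∈ D) {i : Fin N} (hi : x ∈ A.Ci i 2) {c δ : ℝ} (hc : 0 < c) (hδ : 0 < δ)
    (hδ1 : δ ≤ 1 / 8) : ∃ y, IsMn (A.pot i φ) (P1 c) δ (A.e i x) y ∧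
      A.pot i φ (A.e i x) ≤ WW (A.pot i φ) (P1 c) δ (A.e i x) :=
  exists_IsMn_of_smooth hn Metric.isOpen_ball (hp i) (isOpen_GD A hD i) (GD_subset A D i)
    (contDiffOn_pot A hφ i) (chart_mem_GD A hxD hi) hc hδ (mem_shr_B3 hδ1 hi.2)

theorem contDiffAt_WW_chart (hn : 0 < n) (hD : IsOpen D) (hφ : A.SmoothOn D φ) (hp : A.PSX φ)
    {x : X} (hxD : x ∈ D) {i : Fin N} (hi : x ∈ A.Ci i 2) {c δ : ℝ} (hc : 0 < c) (hδ : 0 < δ)
    (hδ1 : δ ≤ 1 / 8) : ContDiffAt ℝ (⊤ : ℕ∞) (WW (A.pot i φ) (P1 c) δ) (A.e i x) :=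
  contDiffAt_WW_of_smooth hn Metric.isOpen_ball (hp i) (isOpen_GD A hD i) (GD_subset A D i)
    (contDiffOn_pot A hφ i) (chart_mem_GD A hxD hi) hc hδ (mem_shr_B3 hδ1 hi.2)

theorem continuousAt_tr (hn : 0 < n) (hD : IsOpen D) (hφ : A.SmoothOn D φ) (hp : A.PSX φ)
    {x : X} (hxD : x ∈ D) {i : Fin N} (hi : x ∈ A.Ci i 2) {c δ κ : ℝ} (hc : 0 < c) (hδ : 0 < δ)
    (hδ1 : δ ≤ 1 / 8) :
    ContinuousAt (fun y => A.tr φ (P1 c) δ i y - κ * ‖A.e i y‖ ^ 2) x := by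
  have he : ContinuousAt (A.e i) x := (A.e i).continuousAt hi.1
  have h1 := (contDiffAt_WW_chart A hn hD hφ hp hxD hi hc hδ hδ1).continuousAt
  have h2 : ContinuousAt (A.g i) (A.e i x) :=
    ((A.g_smooth i).continuousOn).continuousAt
      ((A.e i).open_target.mem_nhds ((A.e i).map_source hi.1))
  have h3 : ContinuousAt (fun y => WW (A.pot i φ) (P1 c) δ (A.e i y)) x :=
    ContinuousAt.comp (g := WW (A.pot i φ) (P1 c) δ) h1 he
  have h4 : ContinuousAt (fun y => A.g i (A.e i y)) x := ContinuousAt.comp (g := A.g i) h2 he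
  exact (h3.sub h4).sub (continuousAt_const.mul (he.norm.pow 2))

variable [CompactSpace X] [T2Space X]

theorem continuousOn_gl (hn : 0 < n) (hD : IsOpen D) (hφ : A.SmoothOn D φ) (hp : A.PSX φ)
    {c δ κ : ℝ} (hc : 0 < c) (hδ : 0 < δ) (hδ1 : δ ≤ 1 / 8) (hκ : 0 ≤ κ)
    (hcmp : ∀ (i j : Fin N) (x : X), x ∈ A.Ci i 2 → x ∈ A.Ci j 2 →
      A.Att φ (P1 c) δ i x → A.Att φ (P1 c) δ j x →
      |A.tr φ (P1 c) δ i x - A.tr φ (P1 c) δ j x| ≤ κ) :
    ContinuousOn (A.gl φ (P1 c) δ κ) D := by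
  intro x hx
  refine ContinuousAt.continuousWithinAt ?_
  rw [A.gl_eq_glue]
  obtain ⟨O, hO, hxO, hOi, hglue⟩ := A.eventually_glue x
  have hatt : ∀ y ∈ D, ∀ i, y ∈ A.Bi i 2 → A.Att φ (P1 c) δ i y := by
    intro y hy i hi
    obtain ⟨t, ht, -⟩ := att_of_mem A hn hD hφ hp hy (A.Bi_subset_Ci i 2 hi) hc hδ hδ1
    exact ⟨t, ht⟩
  have hrep : ∀ y ∈ O ∩ D, ∃ i, x ∈ A.Bi i 2 ∧ A.glue (fun i => A.tr φ (P1 c) δ i) κ y =
      A.tr φ (P1 c) δ i y - κ * ‖A.e i y‖ ^ 2 := by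
    rintro y ⟨hyO, hyD⟩
    exact hglue _ κ hκ y hyO fun i j hi hj =>
      hcmp i j y (A.Bi_subset_Ci i 2 hi) (A.Bi_subset_Ci j 2 hj) (hatt y hyD i hi) (hatt y hyD j hj)
  have hcont : ∀ i, x ∈ A.Bi i 2 →
      ContinuousAt (fun y => A.tr φ (P1 c) δ i y - κ * ‖A.e i y‖ ^ 2) x := fun i hi =>
    continuousAt_tr A hn hD hφ hp hx (A.Bi_subset_Ci i 2 hi) hc hδ hδ1
  rw [Metric.continuousAt_iff']
  intro ε hε
  have hev : ∀ᶠ y in 𝓝 x, ∀ i, x ∈ A.Bi i 2 →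
      |(A.tr φ (P1 c) δ i y - κ * ‖A.e i y‖ ^ 2) -
        (A.tr φ (P1 c) δ i x - κ * ‖A.e i x‖ ^ 2)| < ε := by
    rw [eventually_all]
    intro i
    by_cases hi : x ∈ A.Bi i 2
    · filter_upwards [Metric.continuousAt_iff'.mp (hcont i hi) ε hε] with y hy _
      rwa [Real.dist_eq] at hy
    · exact Eventually.of_forall fun y h => absurd h hi
  filter_upwards [hev, hO.mem_nhds hxO, hD.mem_nhds hx] with y hy hyO hyD
  obtain ⟨i, hi, h1⟩ := hrep y ⟨hyO, hyD⟩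
  obtain ⟨j, hj, h2⟩ := hrep x ⟨hxO, hx⟩
  have h3 := A.le_glue (fun i => A.tr φ (P1 c) δ i) κ (hOi j hj hyO)
  have h4 := A.le_glue (fun i => A.tr φ (P1 c) δ i) κ hi
  have h5 := abs_lt.mp (hy i hi)
  have h6 := abs_lt.mp (hy j hj)
  rw [Real.dist_eq, abs_lt]
  constructor <;> linarith [h5.1, h5.2, h6.1, h6.2]

/-- quadratic bound for the means of `log f_i` -/
theorem exists_Phi_logf_bound : ∃ C : ℝ, 0 ≤ C ∧ ∀ i, ∀ z : V n, ‖z‖ ≤ 2 → ∀ t : ℝ, 0 ≤ t →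
    t ≤ 1 → |Phi (fun y => Real.log (A.f i y)) z t - Real.log (A.f i z)| ≤ C * t ^ 2 := by
  have h1 : ∀ i : Fin N, ∃ C : ℝ, 0 ≤ C ∧ ∀ z ∈ Metric.closedBall (0 : V n) 2, ∀ t, 0 ≤ t → t ≤ 1 →
      |Phi (fun y => Real.log (A.f i y)) z t - Real.log (A.f i z)| ≤ C * t ^ 2 := by
    intro i
    refine abs_Phi_sub_le (A.e i).open_target ?_ (isCompact_closedBall 0 2) zero_le_one ?_
    · exact ((A.f_smooth i).log fun z hz => (A.f_pos i z hz).ne').of_le two_le_top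
    · intro z hz
      have h2 : ‖z‖ ≤ 2 := by simpa using hz
      intro y hy
      have h3 := Metric.mem_closedBall.mp hy
      have h4 : ‖y‖ ≤ ‖z‖ + dist y z := by
        rw [dist_eq_norm]
        calc ‖y‖ = ‖z + (y - z)‖ := by congr 1; abel
          _ ≤ _ := norm_add_le _ _
      exact mem_target A (by linarith)
  choose C hC hC' using h1
  refine ⟨∑ i, C i, Finset.sum_nonneg fun i _ => hC i, fun i z hz t ht ht1 => ?_⟩
  refine (hC' i z (by simpa using hz) t ht ht1).trans ?_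
  exact mul_le_mul_of_nonneg_right (Finset.single_le_sum (fun j _ => hC j) (Finset.mem_univ i))
    (by positivity)

end Pool.Agent.Helper76.AM
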