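import Pool.Agent.Helper76.AM.UL8
import Pool.Agent.Helper29.AM.C8

/-!
# Project AM, section 9: the uniform Laplacian bound (9.1)
-/

set_option autoImplicit false

namespace Pool.Agent.Helper76.AM

open MeasureTheory Set Filter Topology
open Pool.Agent.Helper29.AM
open scoped ComplexOrder

variable {X : Type} [TopologicalSpace X] [MeasurableSpace X] {n N : ℕ} (A : Atl X n N)

/-- the comparison function `(1-b) w + b ψ₂ - φ` -/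
noncomputable def UU (φ ψ2 : X → ℝ) (δ κ b : ℝ) (x : X) : ℝ :=
  (1 - b) * A.gl φ (P1 (δ ^ 2)) δ κ x + b * ψ2 x - φ x

theorem exists_small (α : ℝ) {β : ℝ} (hβ : 0 < β) :
    ∀ᶠ δ : ℝ in 𝓝[>] 0, α * δ ^ 2 ≤ β := by
  have h1 : Tendsto (fun δ : ℝ => α * δ ^ 2) (𝓝[>] 0) (𝓝 0) := by
    have h2 : Tendsto (fun δ : ℝ => α * δ ^ 2) (𝓝 0) (𝓝 (α * 0 ^ 2)) :=
      (continuous_const.mul (continuous_id.pow 2)).tendsto 0
    simp only [ne_eq, OfNat.ofNat_ne_zero, not_false_eq_true, zero_pow, mul_zero] at h2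
    exact h2.mono_left nhdsWithin_le_nhds
  filter_upwards [h1.eventually (eventually_le_nhds hβ)] with δ hδ using hδ

/-- the second derivative test in the chart at a maximum point of `UU` -/
theorem psd_at_max (hn : 0 < n) {D : Set X} (hD : IsOpen D) {φ ψ2 ψk : X → ℝ}
    (hφ : A.SmoothOn D φ) (hp : A.PSX φ) {ε κ₀ B₀ δ : ℝ} (hκ : 0 ≤ κ₀)
    (hB : 0 < B₀) (hBκ : κ₀ ≤ B₀ * ε / 2) (hδ : 0 < δ) (hδ1 : δ ≤ 1 / 8)
    (hb1 : B₀ * δ ^ 2 ≤ 1 / 2) {Dk : Set X} (hDk : IsOpen Dk) (hψk : A.SmoothOn Dk ψk)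
    (hle : ∀ x ∈ Dk, ψk x ≤ ψ2 x) {x₀ : X} (hx₀ : x₀ ∈ D) (hx₀k : x₀ ∈ Dk)
    (heq : ψk x₀ = ψ2 x₀) {i : Fin N} (hi : x₀ ∈ A.Bi i 2)
    (hgl : A.gl φ (P1 (δ ^ 2)) δ (κ₀ * δ ^ 2) x₀ =
      A.tr φ (P1 (δ ^ 2)) δ i x₀ - κ₀ * δ ^ 2 * ‖A.e i x₀‖ ^ 2)
    (hlev : ∀ w : V n, ε * ‖w‖ ^ 2 ≤ lev (A.pot i ψk) (A.e i x₀) w)
    (hmax : ∀ y ∈ D, UU A φ ψ2 δ (κ₀ * δ ^ 2) (B₀ * δ ^ 2) y ≤
      UU A φ ψ2 δ (κ₀ * δ ^ 2) (B₀ * δ ^ 2) x₀) :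
    (hess (A.pot i φ) (A.e i x₀) - mix (B₀ * δ ^ 2) (B₀ * ε / 2 * δ ^ 2)
      (hess (WW (A.pot i φ) (P1 (δ ^ 2)) δ) (A.e i x₀))).PosSemidef := by
  have hCi : x₀ ∈ A.Ci i 2 := A.Bi_subset_Ci i 2 hi
  have hc : 0 < δ ^ 2 := by positivity
  have hzG : A.e i x₀ ∈ GD A D i := chart_mem_GD A hx₀ hCi
  have hzt : A.e i x₀ ∈ (A.e i).target := (A.e i).map_source hi.1
  have hsym : (A.e i).symm (A.e i x₀) = x₀ := (A.e i).left_inv hi.1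
  have hW : ContDiffAt ℝ 2 (WW (A.pot i φ) (P1 (δ ^ 2)) δ) (A.e i x₀) :=
    (contDiffAt_WW_chart A hn hD hφ hp hx₀ hCi hc hδ hδ1).of_le two_le_top
  have hg : ContDiffAt ℝ 2 (A.g i) (A.e i x₀) :=
    ((A.g_smooth i).of_le two_le_top).contDiffAt ((A.e i).open_target.mem_nhds hzt)
  have hφc : ContDiffAt ℝ 2 (A.lc i φ) (A.e i x₀) := by
    refine ((hφ i).of_le two_le_top).contDiffAt ?_
    exact ((A.e i).isOpen_inter_preimage_symm hD).mem_nhds hzG.2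
  have hDkz : A.e i x₀ ∈ (A.e i).target ∩ (A.e i).symm ⁻¹' Dk :=
    ⟨hzt, by simpa only [mem_preimage, hsym] using hx₀k⟩
  have hq : ContDiffAt ℝ 2 (A.lc i ψk) (A.e i x₀) := by
    refine ((hψk i).of_le two_le_top).contDiffAt ?_
    exact ((A.e i).isOpen_inter_preimage_symm hDk).mem_nhds hDkz
  have hb0 : 0 ≤ B₀ * δ ^ 2 := by positivity
  refine psd_of_localMax (g := A.g i) (q := A.lc i ψk) (φ := A.lc i φ) (m := κ₀ * δ ^ 2)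
    (ε₁ := ε) hW hg hq hφc (Eventually.of_forall fun z => rfl) hb0 (by positivity) ?_ hlev ?_
  · nlinarith
  · have hBi : IsOpen ((A.e i).target ∩ (A.e i).symm ⁻¹' (A.Bi i 2)) :=
      (A.e i).isOpen_inter_preimage_symm (A.isOpen_Bi i 2)
    have hBz : A.e i x₀ ∈ (A.e i).target ∩ (A.e i).symm ⁻¹' (A.Bi i 2) :=
      ⟨hzt, by simpa only [mem_preimage, hsym] using hi⟩
    have hev : ∀ᶠ z in 𝓝 (A.e i x₀), (z ∈ (A.e i).target ∧ (A.e i).symm z ∈ D) ∧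
        (z ∈ (A.e i).target ∧ (A.e i).symm z ∈ Dk) ∧
        (z ∈ (A.e i).target ∧ (A.e i).symm z ∈ A.Bi i 2) := by
      filter_upwards [((A.e i).isOpen_inter_preimage_symm hD).mem_nhds hzG.2,
        ((A.e i).isOpen_inter_preimage_symm hDk).mem_nhds hDkz, hBi.mem_nhds hBz] with z h1 h2 h3
      exact ⟨h1, h2, h3⟩
    filter_upwards [hev] with z hz
    obtain ⟨⟨hzt', hzD⟩, ⟨-, hzk⟩, ⟨-, hzB⟩⟩ := hz
    have h1 := A.le_glue (fun j => A.tr φ (P1 (δ ^ 2)) δ j) (κ₀ * δ ^ 2) hzB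
    rw [← A.gl_eq_glue] at h1
    have h2 := hle _ hzk
    have h3 := hmax _ hzD
    unfold UU at h3
    rw [hgl] at h3
    have hright : A.e i ((A.e i).symm z) = z := (A.e i).right_inv hzt'
    rw [Atl.tr, hright] at h1
    rw [Atl.tr] at h3
    simp only [Atl.lc, hsym, heq]
    have h4 := mul_le_mul_of_nonneg_left h1 (by linarith : 0 ≤ 1 - B₀ * δ ^ 2)
    have h5 := mul_le_mul_of_nonneg_left h2 hb0
    linarith

end Pool.Agent.Helper76.AM
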